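import Pool.Agent.H73.MR.Coc
import Pool.Agent.H73.MR.Mat

/-!
Groups of linear maps of `ℝ ^ 3` which preserve the lattice `ℤ ^ 3`, a closed convex cone without lines
and with interior, and an integral vector of the cone: they are virtually cyclic.
-/

set_option autoImplicit false

open Pool.Agent.N110.CC (PC)
open Pool.Agent.N165.KM (interior_add_mem interior_smul_mem)
open Filter Topology

namespace Pool.Agent.H59C

/-- integral vectors -/
def IsInt {d : ℕ} (x : Fin d → ℝ) : Prop := ∀ i, ∃ m : ℤ, x i = m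

section general

variable {d : ℕ} {C : Set (Fin d → ℝ)} {Γ : Subgroup ((Fin d → ℝ) ≃ₗ[ℝ] (Fin d → ℝ))}
  {v : Fin d → ℝ}

/-- a group which preserves a cone, a lattice and a vector of the cone -/
structure Fx (C : Set (Fin d → ℝ)) (Γ : Subgroup ((Fin d → ℝ) ≃ₗ[ℝ] (Fin d → ℝ)))
    (v : Fin d → ℝ) : Prop where
  pc : PC C
  int : (interior C).Nonempty
  pres : ∀ T ∈ Γ, ∀ x ∈ C, T x ∈ C
  lat : ∀ T ∈ Γ, ∀ x, IsInt x → IsInt (T x)
  fix : ∀ T ∈ Γ, T v = v
  vint : IsInt v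
  v0 : v ≠ 0
  vC : v ∈ C

/-- limits of rays -/
theorem ray (hC : PC C) {x w : Fin d → ℝ} (h : ∀ n : ℕ, x + (n : ℝ) • w ∈ C) : w ∈ C := by
  have h1 : Tendsto (fun n : ℕ => (1 / ((n : ℝ) + 1)) • x + w) atTop (𝓝 ((0 : ℝ) • x + w)) :=
    (tendsto_one_div_add_atTop_nhds_zero_nat.smul_const _).add_const _
  rw [zero_smul, zero_add] at h1
  refine hC.closed.mem_of_tendsto h1 (Eventually.of_forall fun n => ?_)
  have hn : (0 : ℝ) < (n : ℝ) + 1 := by positivity
  have h2 := hC.smul (1 / ((n : ℝ) + 1)) (by positivity) _ (h (n + 1))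
  have h3 : (1 / ((n : ℝ) + 1)) • (x + ((n + 1 : ℕ) : ℝ) • w) = (1 / ((n : ℝ) + 1)) • x + w := by
    rw [smul_add, smul_smul]
    push_cast
    rw [one_div_mul_cancel hn.ne', one_smul]
  rwa [h3] at h2

/-- vectors close to an interior vector -/
theorem small {x : Fin d → ℝ} (hx : x ∈ interior C) :
    ∃ ε : ℝ, 0 < ε ∧ ∀ w : Fin d → ℝ, ‖w‖ < ε → x + w ∈ C := by
  obtain ⟨ε, hε, hb⟩ := Metric.isOpen_iff.1 isOpen_interior x hx
  refine ⟨ε, hε, fun w hw => interior_subset (hb ?_)⟩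
  rw [Metric.mem_ball, dist_eq_norm, add_sub_cancel_left]
  exact hw

theorem small' {x : Fin d → ℝ} (hx : x ∈ interior C) (w : Fin d → ℝ) :
    ∃ ε : ℝ, 0 < ε ∧ x + ε • w ∈ C ∧ x - ε • w ∈ C := by
  obtain ⟨ε, hε, h⟩ := small hx
  have hn : 0 < ‖w‖ + 1 := by positivity
  have hlt : ‖(ε / (‖w‖ + 1)) • w‖ < ε := by
    rw [norm_smul, Real.norm_eq_abs, abs_of_pos (by positivity), div_mul_eq_mul_div,
      div_lt_iff₀ hn]
    nlinarith [norm_nonneg w]
  refine ⟨ε / (‖w‖ + 1), by positivity, h _ hlt, ?_⟩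
  rw [sub_eq_add_neg]
  exact h _ (by rwa [norm_neg])

/-- elements which act trivially on the quotient by the fixed vector are trivial -/
theorem Fx.faithful (h : Fx C Γ v) {T : (Fin d → ℝ) ≃ₗ[ℝ] (Fin d → ℝ)} (hT : T ∈ Γ)
    (hs : ∀ x, ∃ s : ℝ, T x = x + s • v) : T = 1 := by
  have key : ∀ S ∈ Γ, ∀ x ∈ C, ∀ s : ℝ, S x = x + s • v → s • v ∈ C := by
    intro S hS x hx s hs
    refine ray h.pc (x := x) fun n => ?_
    have h1 : ∀ m : ℕ, (S ^ m) x = x + (m : ℝ) • (s • v) := by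
      intro m
      induction m with
      | zero =>
        rw [pow_zero, Nat.cast_zero, zero_smul, add_zero]
        rfl
      | succ m ih =>
        rw [pow_succ', LinearEquiv.mul_apply, ih, map_add, hs, map_smul, map_smul, h.fix S hS]
        push_cast
        rw [add_smul, one_smul]
        abel
    rw [← h1]
    exact h.pres _ (Γ.pow_mem hS n) x hx
  have hC : ∀ x ∈ C, T x = x := by
    intro x hx
    obtain ⟨s, hs1⟩ := hs x
    have h1 := key T hT x hx s hs1
    have h2 : T⁻¹ x = x + (-s) • v := by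
      have h3 : T⁻¹ (T x) = x := by
        rw [← LinearEquiv.mul_apply, inv_mul_cancel]
        rfl
      rw [hs1, map_add, map_smul, h.fix _ (Γ.inv_mem hT)] at h3
      rw [neg_smul, ← sub_eq_add_neg, eq_sub_iff_add_eq]
      exact h3
    have h4 := key _ (Γ.inv_mem hT) x hx _ h2
    rw [neg_smul] at h4
    have h5 := h.pc.pointed _ h1 h4
    rw [hs1, h5, add_zero]
  obtain ⟨x0, hx0⟩ := h.int
  refine LinearEquiv.ext fun x => ?_
  obtain ⟨ε, hε, h1, -⟩ := small' hx0 x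
  have h2 := hC _ h1
  rw [map_add, hC _ (interior_subset hx0), map_smul, add_right_inj] at h2
  have h3 := smul_right_injective (Fin d → ℝ) hε.ne' h2
  exact h3

theorem ext_single {T T' : (Fin d → ℝ) ≃ₗ[ℝ] (Fin d → ℝ)}
    (h : ∀ j, T (Pi.single j 1) = T' (Pi.single j 1)) : T = T' := by
  have h1 : (T : (Fin d → ℝ) →ₗ[ℝ] (Fin d → ℝ)) = T' := by
    refine LinearMap.pi_ext' fun j => LinearMap.ext_ring ?_
    exact h j
  exact LinearEquiv.toLinearMap_injective h1

theorem isInt_single (j : Fin d) : IsInt (Pi.single j 1 : Fin d → ℝ) := by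
  intro i
  by_cases hij : i = j
  · subst hij
    exact ⟨1, by simp⟩
  · exact ⟨0, by simp [hij]⟩

/-- the group is finite if it fixes an interior vector -/
theorem Fx.finite (h : Fx C Γ v) (hv : v ∈ interior C) : Finite Γ := by
  obtain ⟨ε, hε, hb⟩ := small hv
  obtain ⟨M, hM, hn⟩ := Pool.Agent.H73.MR.normal h.pc
  obtain ⟨R, hR⟩ : ∃ R : ℝ, R = (M * ‖(2 : ℝ) • v‖ + ‖v‖) / (ε / 2) := ⟨_, rfl⟩
  have hbound : ∀ T ∈ Γ, ∀ i j, |T (Pi.single j 1) i| ≤ R := by
    intro T hT i j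
    have hw : ‖(Pi.single j (ε / 2) : Fin d → ℝ)‖ < ε := by
      rw [Pi.norm_single, Real.norm_eq_abs, abs_of_pos (half_pos hε)]
      exact half_lt_self hε
    obtain ⟨w, hw'⟩ : ∃ w : Fin d → ℝ, w = Pi.single j (ε / 2) := ⟨_, rfl⟩
    rw [← hw'] at hw
    have h1 := h.pres T hT _ (hb w hw)
    have h2 := h.pres T hT _ (hb (-w) (by rwa [norm_neg]))
    rw [map_add, h.fix T hT] at h1 h2
    rw [map_neg] at h2
    have h3 := hn (v + T w) ((2 : ℝ) • v) h1 (by
      have : (2 : ℝ) • v - (v + T w) = v + -T w := by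
        rw [two_smul]
        abel
      rwa [this])
    have h4 : ‖T w‖ ≤ M * ‖(2 : ℝ) • v‖ + ‖v‖ := by
      have h5 : T w = (v + T w) - v := by abel
      rw [h5]
      exact (norm_sub_le _ _).trans (by linarith)
    have h5 : w = (ε / 2) • (Pi.single j 1 : Fin d → ℝ) := by
      rw [hw', ← Pi.single_smul, smul_eq_mul, mul_one]
    rw [h5, map_smul, norm_smul, Real.norm_eq_abs, abs_of_pos (half_pos hε)] at h4
    rw [hR, le_div_iff₀ (half_pos hε), mul_comm]
    refine le_trans ?_ h4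
    refine mul_le_mul_of_nonneg_left ?_ (half_pos hε).le
    have := norm_le_pi_norm (T (Pi.single j 1)) i
    rwa [Real.norm_eq_abs] at this
  have hfin : (Set.pi Set.univ fun _ : Fin d => (Set.pi Set.univ fun _ : Fin d =>
      Set.Icc (-⌈R⌉) ⌈R⌉)).Finite :=
    Set.Finite.pi fun _ => Set.Finite.pi fun _ => Set.finite_Icc _ _
  have hmem : ∀ T : Γ, (fun i j => ⌊(T : (Fin d → ℝ) ≃ₗ[ℝ] (Fin d → ℝ)) (Pi.single j 1) i⌋) ∈
      (Set.pi Set.univ fun _ : Fin d => (Set.pi Set.univ fun _ : Fin d =>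
        Set.Icc (-⌈R⌉) ⌈R⌉)) := by
    intro T i _ j _
    obtain ⟨m, hm⟩ := h.lat T T.2 _ (isInt_single j) i
    have h1 := abs_le.1 (hbound T T.2 i j)
    have h3 := Int.le_ceil R
    show ⌊(T : (Fin d → ℝ) ≃ₗ[ℝ] (Fin d → ℝ)) (Pi.single j 1) i⌋ ∈ _
    rw [hm, Int.floor_intCast]
    rw [hm] at h1
    constructor
    · have : (-(⌈R⌉ : ℤ) : ℝ) ≤ m := by linarith [h1.1]
      exact_mod_cast this
    · have : (m : ℝ) ≤ ⌈R⌉ := by linarith [h1.2]
      exact_mod_cast this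
  have := hfin.to_subtype
  refine Finite.of_injective (fun T : Γ => (⟨_, hmem T⟩ : (Set.pi Set.univ fun _ : Fin d =>
    (Set.pi Set.univ fun _ : Fin d => Set.Icc (-⌈R⌉) ⌈R⌉)))) ?_
  intro T T' hTT'
  have h1 := Subtype.ext_iff.1 hTT'
  refine Subtype.ext (ext_single fun j => ?_)
  funext i
  have h2 := congrFun (congrFun h1 i) j
  dsimp only at h2
  obtain ⟨m, hm⟩ := h.lat T T.2 _ (isInt_single j) i
  obtain ⟨m', hm'⟩ := h.lat T' T'.2 _ (isInt_single j) i
  rw [hm, hm', Int.floor_intCast, Int.floor_intCast] at h2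
  rw [hm, hm', h2]

/-- the coordinates of integral vectors in an integral basis have bounded denominators -/
theorem coord_int (B : Module.Basis (Fin d) ℝ (Fin d → ℝ)) (hB : ∀ j, IsInt (B j)) :
    ∃ D : ℤ, D ≠ 0 ∧ ∀ x : Fin d → ℝ, IsInt x → ∀ i, ∃ m : ℤ, (D : ℝ) * B.coord i x = m := by
  classical
  choose P hP using hB
  have hA : (Pi.basisFun ℝ (Fin d)).toMatrix B = (Matrix.of fun i j => P j i).map
      (Int.castRingHom ℝ) := by
    ext i j
    rw [Module.Basis.toMatrix_apply, Pi.basisFun_repr, hP]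
    rfl
  obtain ⟨Q, hQ⟩ : ∃ Q : Matrix (Fin d) (Fin d) ℤ, Q = Matrix.of fun i j => P j i := ⟨_, rfl⟩
  rw [← hQ] at hA
  have h1 : B.toMatrix (Pi.basisFun ℝ (Fin d)) * (Pi.basisFun ℝ (Fin d)).toMatrix B = 1 :=
    Module.Basis.toMatrix_mul_toMatrix_flip _ _
  rw [hA] at h1
  have hdet : ((Q.map (Int.castRingHom ℝ)).det : ℝ) = ((Q.det : ℤ) : ℝ) :=
    ((Int.castRingHom ℝ).map_det Q).symm
  have h2 : Q.det ≠ 0 := by
    intro h0
    have h3 := congrArg Matrix.det h1
    rw [Matrix.det_mul, hdet, h0, Matrix.det_one] at h3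
    simp at h3
  have h3 : (Q.det : ℝ) • B.toMatrix (Pi.basisFun ℝ (Fin d)) =
      (Q.adjugate).map (Int.castRingHom ℝ) := by
    have h4 : (Q.adjugate).map (Int.castRingHom ℝ) = (Q.map (Int.castRingHom ℝ)).adjugate :=
      (Int.castRingHom ℝ).map_adjugate Q
    calc (Q.det : ℝ) • B.toMatrix (Pi.basisFun ℝ (Fin d))
        = B.toMatrix (Pi.basisFun ℝ (Fin d)) * ((Q.det : ℝ) • 1) := by
          rw [Matrix.mul_smul, Matrix.mul_one]
      _ = B.toMatrix (Pi.basisFun ℝ (Fin d)) * (Q.map (Int.castRingHom ℝ) *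
            (Q.map (Int.castRingHom ℝ)).adjugate) := by
          rw [Matrix.mul_adjugate, hdet]
      _ = _ := by rw [← Matrix.mul_assoc, h1, Matrix.one_mul, h4]
  refine ⟨Q.det, h2, fun x hx i => ?_⟩
  choose m hm using hx
  refine ⟨∑ j, Q.adjugate i j * m j, ?_⟩
  have h4 : x = ∑ j, x j • (Pi.basisFun ℝ (Fin d)) j := by
    funext k
    simp [Finset.sum_apply, Pi.single_apply]
  have h5 : B.coord i x = ∑ j, x j * B.toMatrix (Pi.basisFun ℝ (Fin d)) i j := by
    conv_lhs => rw [h4]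
    rw [map_sum]
    refine Finset.sum_congr rfl fun j _ => ?_
    rw [map_smul, smul_eq_mul]
    rfl
  rw [h5, Finset.mul_sum, Int.cast_sum]
  refine Finset.sum_congr rfl fun j _ => ?_
  have h6 := congrFun (congrFun h3 i) j
  rw [Matrix.smul_apply, smul_eq_mul, Matrix.map_apply] at h6
  rw [hm j, Int.cast_mul]
  have h7 : ((Q.adjugate i j : ℤ) : ℝ) = (Q.det : ℝ) *
      B.toMatrix (⇑(Pi.basisFun ℝ (Fin d))) i j := h6.symm
  rw [h7]
  ring

/-- determinant and trace of maps which preserve the lattice are integers -/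
theorem det_int (T : (Fin d → ℝ) →ₗ[ℝ] (Fin d → ℝ)) (hT : ∀ x, IsInt x → IsInt (T x)) :
    (∃ m : ℤ, LinearMap.det T = m) ∧ ∃ m : ℤ, LinearMap.trace ℝ _ T = m := by
  choose M hM using fun (j i : Fin d) => hT _ (isInt_single j) i
  have h1 : LinearMap.toMatrix' T = (Matrix.of fun i j => M j i).map (Int.castRingHom ℝ) := by
    ext i j
    rw [LinearMap.toMatrix'_apply]
    rw [hM j i]
    rfl
  constructor
  · refine ⟨(Matrix.of fun i j => M j i).det, ?_⟩
    rw [← LinearMap.det_toMatrix', h1]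
    exact ((Int.castRingHom ℝ).map_det _).symm
  · refine ⟨(Matrix.of fun i j => M j i).trace, ?_⟩
    rw [LinearMap.trace_eq_matrix_trace ℝ (Pi.basisFun ℝ (Fin d)), LinearMap.toMatrix_eq_toMatrix',
      h1, Matrix.trace, Matrix.trace]
    push_cast
    rfl

end general

end Pool.Agent.H59C
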