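import Pool.Agent.H59C.Cyc

/-!
The group is virtually cyclic if the rank is three.
-/

set_option autoImplicit false

open Pool.Agent.N110.CC (PC)
open Pool.Agent.N165.KM (interior_add_mem interior_smul_mem)
open Filter Topology

namespace Pool.Agent.H59C

section support

variable {d : ℕ} {C : Set (Fin d → ℝ)}

/-- a linear functional which is zero at a vector which is not in the interior -/
theorem support (hC : PC C) {v x0 : Fin d → ℝ} (hx0 : x0 ∈ interior C) (hv : v ∈ C)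
    (hvi : v ∉ interior C) :
    ∃ g : (Fin d → ℝ) →L[ℝ] ℝ, (∀ x ∈ C, 0 ≤ g x) ∧ g v = 0 ∧ 0 < g x0 := by
  have hconv : Convex ℝ (interior C) := by
    have h1 : Convex ℝ C := fun a ha b hb s t hs ht _ =>
      hC.add _ (hC.smul s hs a ha) _ (hC.smul t ht b hb)
    exact h1.interior
  obtain ⟨f, hf⟩ := geometric_hahn_banach_open_point hconv isOpen_interior hvi
  have h1 : ∀ a ∈ interior C, ∀ t : ℝ, 0 < t → t * f a < f v := by
    intro a ha t ht
    have := hf _ (interior_smul_mem hC.smul ht ha)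
    rwa [map_smul, smul_eq_mul] at this
  have h2 : ∀ a ∈ interior C, f a ≤ 0 := by
    intro a ha
    by_contra hpos
    push Not at hpos
    have h3 := h1 a ha ((|f v| + 1) / f a) (by positivity)
    rw [div_mul_cancel₀ _ hpos.ne'] at h3
    linarith [le_abs_self (f v)]
  have h3 : ∀ x ∈ C, f x ≤ 0 := by
    intro x hx
    by_contra hpos
    push Not at hpos
    have h4 : ∀ t : ℝ, 0 < t → f x + t * f x0 ≤ 0 := by
      intro t ht
      have h5 : t • x0 + x ∈ interior C :=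
        interior_add_mem hC.add (interior_smul_mem hC.smul ht hx0) hx
      have h6 := h2 _ h5
      rw [map_add, map_smul, smul_eq_mul] at h6
      linarith
    have h5 := h4 (f x / (2 * (|f x0| + 1))) (by positivity)
    have h6 : -|f x0| ≤ f x0 := neg_abs_le _
    have h7 : (f x / (2 * (|f x0| + 1))) * -|f x0| ≤ (f x / (2 * (|f x0| + 1))) * f x0 :=
      mul_le_mul_of_nonneg_left h6 (by positivity)
    have h8 : (f x / (2 * (|f x0| + 1))) * |f x0| ≤ f x / 2 := by
      rw [div_mul_eq_mul_div, div_le_div_iff₀ (by positivity) (by norm_num)]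
      nlinarith [abs_nonneg (f x0)]
    linarith
  have h4 : 0 ≤ f v := by
    by_contra hneg
    push Not at hneg
    have h5 := h1 x0 hx0 (|f v| / (2 * (|f x0| + 1))) (by
      have := abs_pos.2 hneg.ne
      positivity)
    have h6 : -|f x0| ≤ f x0 := neg_abs_le _
    have h7 : (|f v| / (2 * (|f x0| + 1))) * -|f x0| ≤ (|f v| / (2 * (|f x0| + 1))) * f x0 :=
      mul_le_mul_of_nonneg_left h6 (by positivity)
    have h8 : (|f v| / (2 * (|f x0| + 1))) * |f x0| ≤ |f v| / 2 := by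
      rw [div_mul_eq_mul_div, div_le_div_iff₀ (by positivity) (by norm_num)]
      nlinarith [abs_nonneg (f x0), abs_nonneg (f v)]
    have h9 := abs_of_neg hneg
    have h10 := abs_pos.2 hneg.ne
    linarith
  have h5 : f v = 0 := le_antisymm (h3 v hv) h4
  refine ⟨-f, fun x hx => ?_, ?_, ?_⟩
  · rw [neg_apply]
    linarith [h3 x hx]
  · rw [neg_apply, h5, neg_zero]
  · rw [neg_apply]
    have := hf x0 hx0
    linarith

end support

section basis

/-- completion of two independent integral vectors to an integral basis of `ℝ ^ 3` -/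
theorem exists_basis {v x0 : Fin 3 → ℝ} (h : LinearIndependent ℝ ![v, x0]) :
    ∃ (B : Module.Basis (Fin 3) ℝ (Fin 3 → ℝ)) (j : Fin 3), B 0 = Pi.single j 1 ∧ B 1 = v ∧
      B 2 = x0 := by
  have h1 : ∃ j : Fin 3, (Pi.single j 1 : Fin 3 → ℝ) ∉
      Submodule.span ℝ (Set.range ![v, x0]) := by
    by_contra hcon
    push Not at hcon
    have h2 : Submodule.span ℝ (Set.range ![v, x0]) = ⊤ := by
      rw [eq_top_iff]
      intro x _
      have h3 : x = ∑ j, x j • (Pi.single j (1 : ℝ) : Fin 3 → ℝ) := by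
        funext i
        simp [Finset.sum_apply, Pi.single_apply]
      rw [h3]
      exact Submodule.sum_mem _ fun j _ => Submodule.smul_mem _ _ (hcon j)
    have h3 := finrank_span_eq_card h
    rw [h2, finrank_top] at h3
    simp at h3
  obtain ⟨j, hj⟩ := h1
  have h2 : LinearIndependent ℝ (Fin.cons (Pi.single j 1 : Fin 3 → ℝ) ![v, x0] :
      Fin 3 → (Fin 3 → ℝ)) := linearIndependent_finCons.2 ⟨h, hj⟩
  refine ⟨basisOfLinearIndependentOfCardEqFinrank h2 (by simp), j, ?_, ?_, ?_⟩ <;>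
  · rw [coe_basisOfLinearIndependentOfCardEqFinrank]
    rfl

end basis

/-- the situation in the plane `ℝ ^ 3 / ℝ v`: the coordinates `p`, `q` and a group of maps -/
structure Pl (C : Set (Fin 3 → ℝ)) (Γ : Subgroup ((Fin 3 → ℝ) ≃ₗ[ℝ] (Fin 3 → ℝ)))
    (v x0 w : Fin 3 → ℝ) (p q : (Fin 3 → ℝ) →ₗ[ℝ] ℝ) (t0 : ℝ) (D : ℤ) : Prop where
  fx : Fx C Γ v
  hx0 : x0 ∈ interior C
  pv : p v = 0
  px : p x0 = 1
  pw : p w = 0
  qv : q v = 0
  qx : q x0 = 0
  qw : q w = 1
  ex : ∀ x, ∃ r : ℝ, x = q x • w + r • v + p x • x0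
  nn : ∀ x ∈ C, 0 ≤ p x + t0 * q x
  mn : ∀ t : ℝ, (∀ x ∈ C, 0 ≤ p x + t * q x) → t0 ≤ t
  D0 : D ≠ 0
  den : ∀ T ∈ Γ, ∃ m : ℤ, (D : ℝ) * q (T x0) = m
  det : ∀ T : (Fin 3 → ℝ) ≃ₗ[ℝ] (Fin 3 → ℝ), T ∈ Γ →
    LinearMap.det (T : (Fin 3 → ℝ) →ₗ[ℝ] (Fin 3 → ℝ)) =
      p (T x0) * q (T w) - p (T w) * q (T x0)
  tr : ∀ T : (Fin 3 → ℝ) ≃ₗ[ℝ] (Fin 3 → ℝ), T ∈ Γ →
    LinearMap.trace ℝ _ (T : (Fin 3 → ℝ) →ₗ[ℝ] (Fin 3 → ℝ)) = 1 + p (T x0) + q (T w)

theorem exists_pl {C : Set (Fin 3 → ℝ)} {Γ : Subgroup ((Fin 3 → ℝ) ≃ₗ[ℝ] (Fin 3 → ℝ))}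
    {v : Fin 3 → ℝ} (h : Fx C Γ v) (hv : v ∉ interior C) :
    ∃ x0 w p q t0 D, Pl C Γ v x0 w p q t0 D := by
  obtain ⟨x0, hx0, hx0i⟩ := Pool.Agent.H73.MR.exists_int h.pc h.int
  obtain ⟨g, hg, hgv, hgx⟩ := support h.pc hx0 h.vC hv
  have hli : LinearIndependent ℝ ![v, x0] := by
    rw [LinearIndependent.pair_iff]
    intro s t hst
    have h1 := congrArg g hst
    rw [map_add, map_smul, map_smul, hgv, map_zero, smul_zero, zero_add, smul_eq_mul] at h1
    have ht : t = 0 := (mul_eq_zero.1 h1).resolve_right hgx.ne'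
    rw [ht, zero_smul, add_zero] at hst
    exact ⟨(smul_eq_zero.1 hst).resolve_right h.v0, ht⟩
  obtain ⟨B, j, hB0, hB1, hB2⟩ := exists_basis hli
  have hBi : ∀ j, IsInt (B j) := by
    intro k
    fin_cases k
    · show IsInt (B 0)
      rw [hB0]
      exact isInt_single j
    · show IsInt (B 1)
      rw [hB1]
      exact h.vint
    · show IsInt (B 2)
      rw [hB2]
      exact hx0i
  obtain ⟨D, hD0, hD⟩ := coord_int B hBi
  obtain ⟨p, hp⟩ : ∃ p, p = B.coord 2 := ⟨_, rfl⟩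
  obtain ⟨q, hq⟩ : ∃ q, q = B.coord 0 := ⟨_, rfl⟩
  obtain ⟨w, hw⟩ : ∃ w, w = B 0 := ⟨_, rfl⟩
  have pv : p v = 0 := by rw [hp, ← hB1]; simp
  have px : p x0 = 1 := by rw [hp, ← hB2]; simp
  have pw : p w = 0 := by rw [hp, hw]; simp
  have qv : q v = 0 := by rw [hq, ← hB1]; simp
  have qx : q x0 = 0 := by rw [hq, ← hB2]; simp
  have qw : q w = 1 := by rw [hq, hw]; simp
  have ex : ∀ x, x = q x • w + B.coord 1 x • v + p x • x0 := by
    intro x
    have h1 := B.sum_repr x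
    rw [Fin.sum_univ_three] at h1
    rw [hq, hp, hw]
    conv_lhs => rw [← h1]
    rw [hB1, hB2]
    rfl
  -- the slope
  obtain ⟨S, hS⟩ : ∃ S : Set ℝ, S = {t : ℝ | ∀ x ∈ C, 0 ≤ p x + t * q x} := ⟨_, rfl⟩
  have hScl : IsClosed S := by
    have h1 : S = ⋂ x ∈ C, {t : ℝ | 0 ≤ p x + t * q x} := by
      rw [hS]
      ext t
      simp
    rw [h1]
    exact isClosed_biInter fun x _ => isClosed_le continuous_const (by fun_prop)
  have hSne : S.Nonempty := by
    refine ⟨g w / g x0, ?_⟩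
    rw [hS]
    intro x hx
    have h1 : g x = q x * g w + p x * g x0 := by
      conv_lhs => rw [ex x]
      rw [map_add, map_add, map_smul, map_smul, map_smul, hgv]
      simp only [smul_eq_mul, mul_zero, add_zero]
    have h2 : p x + g w / g x0 * q x = g x / g x0 := by
      rw [h1]
      field_simp
      ring
    rw [h2]
    exact div_nonneg (hg x hx) hgx.le
  have hSb : BddBelow S := by
    obtain ⟨ε, hε, h1, -⟩ := small' hx0 w
    refine ⟨-(1 / ε), ?_⟩
    rintro t ht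
    rw [hS] at ht
    have h2 := ht _ h1
    rw [map_add, map_add, map_smul, map_smul, px, pw, qx, qw, smul_zero, add_zero, zero_add,
      smul_eq_mul, mul_one] at h2
    have h3 : -(1 / ε) = -1 / ε := by ring
    rw [h3, div_le_iff₀ hε]
    linarith
  have ht0 : sInf S ∈ S := hScl.csInf_mem hSne hSb
  refine ⟨x0, w, p, q, sInf S, D, h, hx0, pv, px, pw, qv, qx, qw, fun x => ⟨_, ex x⟩, ?_, ?_,
    hD0, ?_, ?_, ?_⟩
  · have h1 := ht0
    rw [hS] at h1
    rw [hS]
    exact h1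
  · intro t ht
    exact csInf_le hSb (by rw [hS]; exact ht)
  · intro T hT
    rw [hq]
    exact hD _ (h.lat T hT _ hx0i) 0
  · intro T hT
    rw [← LinearMap.det_toMatrix B, Matrix.det_fin_three]
    simp only [LinearMap.toMatrix_apply]
    have e1 : (T : (Fin 3 → ℝ) →ₗ[ℝ] (Fin 3 → ℝ)) (B 1) = B 1 := by
      rw [hB1]
      exact h.fix T hT
    rw [e1]
    simp only [Module.Basis.repr_self, Finsupp.single_eq_same]
    rw [hw, hp, hq, ← hB2]
    simp only [Module.Basis.coord_apply, LinearEquiv.coe_coe]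
    rw [Finsupp.single_eq_of_ne (show (2 : Fin 3) ≠ 1 by decide),
      Finsupp.single_eq_of_ne (show (0 : Fin 3) ≠ 1 by decide)]
    ring
  · intro T hT
    rw [LinearMap.trace_eq_matrix_trace ℝ B, Matrix.trace, Fin.sum_univ_three]
    simp only [Matrix.diag_apply, LinearMap.toMatrix_apply]
    have e1 : (T : (Fin 3 → ℝ) →ₗ[ℝ] (Fin 3 → ℝ)) (B 1) = B 1 := by
      rw [hB1]
      exact h.fix T hT
    rw [e1]
    simp only [Module.Basis.repr_self, Finsupp.single_eq_same]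
    rw [hw, hp, hq, ← hB2]
    simp only [Module.Basis.coord_apply, LinearEquiv.coe_coe]
    ring

end Pool.Agent.H59C
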