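import Pool.Agent.H59C.Cyc2

/-!
The group is virtually cyclic if the rank is three: the end of the proof.
-/

set_option autoImplicit false

open Pool.Agent.N110.CC (PC)
open Filter Topology

namespace Pool.Agent.H59C

variable {C : Set (Fin 3 → ℝ)} {Γ : Subgroup ((Fin 3 → ℝ) ≃ₗ[ℝ] (Fin 3 → ℝ))}
  {v x0 w : Fin 3 → ℝ} {p q : (Fin 3 → ℝ) →ₗ[ℝ] ℝ} {t0 : ℝ} {D : ℤ}

namespace Pl

theorem ap (h : Pl C Γ v x0 w p q t0 D) {T : (Fin 3 → ℝ) ≃ₗ[ℝ] (Fin 3 → ℝ)} (hT : T ∈ Γ)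
    (α : (Fin 3 → ℝ) →ₗ[ℝ] ℝ) (hα : α v = 0) (x : Fin 3 → ℝ) :
    α (T x) = p x * α (T x0) + q x * α (T w) := by
  obtain ⟨r, hr⟩ := h.ex x
  conv_lhs => rw [hr]
  simp only [map_add, map_smul, h.fx.fix T hT, hα, smul_eq_mul, mul_zero, add_zero]
  ring

/-- positivity -/
theorem pos (h : Pl C Γ v x0 w p q t0 D) {T : (Fin 3 → ℝ) ≃ₗ[ℝ] (Fin 3 → ℝ)} (hT : T ∈ Γ) :
    0 < p (T x0) + t0 * q (T x0) := by
  have h1 := h.nn _ (h.fx.pres T hT x0 (interior_subset h.hx0))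
  refine lt_of_le_of_ne h1 fun h0 => ?_
  have h2 : ∀ y, p (T y) + t0 * q (T y) = 0 := by
    intro y
    obtain ⟨ε, hε, h3, h4⟩ := small' h.hx0 y
    have h5 := h.nn _ (h.fx.pres T hT _ h3)
    have h6 := h.nn _ (h.fx.pres T hT _ h4)
    rw [map_add, map_smul, map_add, map_add, map_smul, map_smul, smul_eq_mul, smul_eq_mul] at h5
    rw [map_sub, map_smul, map_sub, map_sub, map_smul, map_smul, smul_eq_mul, smul_eq_mul] at h6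
    have h7 : 0 ≤ ε * (p (T y) + t0 * q (T y)) := by linarith
    have h8 : ε * (p (T y) + t0 * q (T y)) ≤ 0 := by linarith
    have h9 : ε * (p (T y) + t0 * q (T y)) = 0 := le_antisymm h8 h7
    exact (mul_eq_zero.1 h9).resolve_left hε.ne'
  have h3 := h2 (T⁻¹ x0)
  have h4 : T (T⁻¹ x0) = x0 := by
    rw [← LinearEquiv.mul_apply, mul_inv_cancel]
    rfl
  rw [h4, h.px, h.qx] at h3
  simp at h3

theorem slope (h : Pl C Γ v x0 w p q t0 D) {T : (Fin 3 → ℝ) ≃ₗ[ℝ] (Fin 3 → ℝ)} (hT : T ∈ Γ) :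
    t0 * (p (T x0) + t0 * q (T x0)) ≤ p (T w) + t0 * q (T w) := by
  have hpos := h.pos hT
  have h1 := h.mn ((p (T w) + t0 * q (T w)) / (p (T x0) + t0 * q (T x0))) fun x hx => by
    have h2 := h.nn _ (h.fx.pres T hT x hx)
    rw [h.ap hT p h.pv x, h.ap hT q h.qv x] at h2
    have h3 : p x + (p (T w) + t0 * q (T w)) / (p (T x0) + t0 * q (T x0)) * q x =
        (p x * p (T x0) + q x * p (T w) + t0 * (p x * q (T x0) + q x * q (T w))) /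
          (p (T x0) + t0 * q (T x0)) := by
      field_simp
      ring
    rw [h3]
    exact div_nonneg h2 hpos.le
  rwa [le_div_iff₀ hpos] at h1

/-- the determinants are `1` or `-1` -/
theorem unit_det (h : Pl C Γ v x0 w p q t0 D) {T : (Fin 3 → ℝ) ≃ₗ[ℝ] (Fin 3 → ℝ)}
    (hT : T ∈ Γ) : LinearMap.det (T : (Fin 3 → ℝ) →ₗ[ℝ] (Fin 3 → ℝ)) = 1 ∨
      LinearMap.det (T : (Fin 3 → ℝ) →ₗ[ℝ] (Fin 3 → ℝ)) = -1 := by
  obtain ⟨m, hm⟩ := (det_int _ (h.fx.lat T hT)).1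
  obtain ⟨m', hm'⟩ := (det_int _ (h.fx.lat _ (Γ.inv_mem hT))).1
  have h1 : LinearMap.det (T : (Fin 3 → ℝ) →ₗ[ℝ] (Fin 3 → ℝ)) *
      LinearMap.det ((T⁻¹ : (Fin 3 → ℝ) ≃ₗ[ℝ] (Fin 3 → ℝ)) : (Fin 3 → ℝ) →ₗ[ℝ] (Fin 3 → ℝ)) = 1 := by
    rw [← map_mul]
    have h2 : (T : (Fin 3 → ℝ) →ₗ[ℝ] (Fin 3 → ℝ)) *
        ((T⁻¹ : (Fin 3 → ℝ) ≃ₗ[ℝ] (Fin 3 → ℝ)) : (Fin 3 → ℝ) →ₗ[ℝ] (Fin 3 → ℝ)) = 1 := by
      refine LinearMap.ext fun x => ?_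
      show T (T⁻¹ x) = x
      rw [← LinearEquiv.mul_apply, mul_inv_cancel]
      rfl
    rw [h2, map_one]
  rw [hm, hm'] at h1
  have h2 : m * m' = 1 := by exact_mod_cast h1
  rcases Int.eq_one_or_neg_one_of_mul_eq_one h2 with h3 | h3
  · left
    rw [hm, h3, Int.cast_one]
  · right
    rw [hm, h3, Int.cast_neg, Int.cast_one]

/-- the first ray is preserved -/
theorem ray_eq (h : Pl C Γ v x0 w p q t0 D) {T : (Fin 3 → ℝ) ≃ₗ[ℝ] (Fin 3 → ℝ)} (hT : T ∈ Γ)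
    (hd : LinearMap.det (T : (Fin 3 → ℝ) →ₗ[ℝ] (Fin 3 → ℝ)) = 1) :
    p (T w) + t0 * q (T w) = t0 * (p (T x0) + t0 * q (T x0)) := by
  have hd' := h.det T hT
  rw [hd] at hd'
  have hTi := Γ.inv_mem hT
  have h1 := h.slope hT
  have h2 := h.slope hTi
  have hc : ∀ x, T (T⁻¹ x) = x := fun x => by
    rw [← LinearEquiv.mul_apply, mul_inv_cancel]
    rfl
  have e1 := h.ap hT p h.pv (T⁻¹ x0)
  have e2 := h.ap hT p h.pv (T⁻¹ w)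
  have e3 := h.ap hT q h.qv (T⁻¹ x0)
  have e4 := h.ap hT q h.qv (T⁻¹ w)
  rw [hc, h.px] at e1
  rw [hc, h.pw] at e2
  rw [hc, h.qx] at e3
  rw [hc, h.qw] at e4
  -- the inverse matrix
  have f1 : p (T⁻¹ x0) = q (T w) := by linear_combination p (T⁻¹ x0) * hd' - q (T w) * e1 + p (T w) * e3
  have f2 : q (T⁻¹ x0) = -q (T x0) := by linear_combination q (T⁻¹ x0) * hd' + q (T x0) * e1 - p (T x0) * e3
  have f3 : p (T⁻¹ w) = -p (T w) := by linear_combination p (T⁻¹ w) * hd' - q (T w) * e2 + p (T w) * e4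
  have f4 : q (T⁻¹ w) = p (T x0) := by linear_combination q (T⁻¹ w) * hd' + q (T x0) * e2 - p (T x0) * e4
  rw [f1, f2, f3, f4] at h2
  nlinarith

/-- the subgroup of the maps with determinant `1` -/
noncomputable def sub1 (Γ : Subgroup ((Fin 3 → ℝ) ≃ₗ[ℝ] (Fin 3 → ℝ))) : Subgroup Γ :=
  ((LinearEquiv.det : ((Fin 3 → ℝ) ≃ₗ[ℝ] (Fin 3 → ℝ)) →* ℝˣ).comp Γ.subtype).ker

theorem mem_sub1 {T : Γ} (hT : T ∈ sub1 Γ) :
    LinearMap.det ((T : (Fin 3 → ℝ) ≃ₗ[ℝ] (Fin 3 → ℝ)) : (Fin 3 → ℝ) →ₗ[ℝ] (Fin 3 → ℝ)) = 1 := by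
  have h1 : LinearEquiv.det (T : (Fin 3 → ℝ) ≃ₗ[ℝ] (Fin 3 → ℝ)) = 1 := hT
  have h2 := congrArg Units.val h1
  rwa [LinearEquiv.coe_det] at h2

theorem sub1_finiteIndex (h : Pl C Γ v x0 w p q t0 D) : (sub1 Γ).FiniteIndex := by
  obtain ⟨f, hf⟩ : ∃ f : Γ →* ℝˣ, f =
    (LinearEquiv.det : ((Fin 3 → ℝ) ≃ₗ[ℝ] (Fin 3 → ℝ)) →* ℝˣ).comp Γ.subtype := ⟨_, rfl⟩
  have h1 : (f.range : Set ℝˣ) ⊆ {1, -1} := by
    rintro _ ⟨T, rfl⟩
    rw [Set.mem_insert_iff, Set.mem_singleton_iff]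
    have h2 : ((f T : ℝˣ) : ℝ) = LinearMap.det
        ((T : (Fin 3 → ℝ) ≃ₗ[ℝ] (Fin 3 → ℝ)) : (Fin 3 → ℝ) →ₗ[ℝ] (Fin 3 → ℝ)) := by
      rw [hf]
      exact LinearEquiv.coe_det _
    rcases h.unit_det T.2 with h3 | h3
    · left
      exact Units.ext (h2.trans h3)
    · right
      exact Units.ext (h2.trans (by rw [h3]; simp))
  have h2 : (f.range : Set ℝˣ).Finite := (Set.toFinite _).subset h1
  have h3 : Finite f.range := h2.to_subtype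
  have h4 : f.ker.FiniteIndex := Subgroup.finiteIndex_ker f
  rw [sub1, ← hf]
  exact h4

/-- the first eigenvalue -/
def chi (p q : (Fin 3 → ℝ) →ₗ[ℝ] ℝ) (x0 : Fin 3 → ℝ) (t0 : ℝ)
    (T : (Fin 3 → ℝ) ≃ₗ[ℝ] (Fin 3 → ℝ)) : ℝ := p (T x0) + t0 * q (T x0)

section one

variable {T T' : (Fin 3 → ℝ) ≃ₗ[ℝ] (Fin 3 → ℝ)}

theorem eig (h : Pl C Γ v x0 w p q t0 D) (hT : T ∈ Γ)
    (hd : LinearMap.det (T : (Fin 3 → ℝ) →ₗ[ℝ] (Fin 3 → ℝ)) = 1) (x : Fin 3 → ℝ) :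
    p (T x) + t0 * q (T x) = chi p q x0 t0 T * (p x + t0 * q x) := by
  have h1 := h.ray_eq hT hd
  rw [h.ap hT p h.pv x, h.ap hT q h.qv x, chi]
  linear_combination q x * h1

theorem chi_pos (h : Pl C Γ v x0 w p q t0 D) (hT : T ∈ Γ) : 0 < chi p q x0 t0 T := h.pos hT

theorem other (h : Pl C Γ v x0 w p q t0 D) (hT : T ∈ Γ)
    (hd : LinearMap.det (T : (Fin 3 → ℝ) →ₗ[ℝ] (Fin 3 → ℝ)) = 1) :
    q (T w) - t0 * q (T x0) = (chi p q x0 t0 T)⁻¹ := by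
  have h1 := h.ray_eq hT hd
  have h2 := h.det T hT
  rw [hd] at h2
  refine eq_inv_of_mul_eq_one_left ?_
  rw [chi]
  linear_combination -h2 + q (T x0) * h1

theorem qT (h : Pl C Γ v x0 w p q t0 D) (hT : T ∈ Γ)
    (hd : LinearMap.det (T : (Fin 3 → ℝ) →ₗ[ℝ] (Fin 3 → ℝ)) = 1) (x : Fin 3 → ℝ) :
    q (T x) = q (T x0) * (p x + t0 * q x) + (chi p q x0 t0 T)⁻¹ * q x := by
  have h1 := h.other hT hd
  rw [h.ap hT q h.qv x, ← h1]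
  ring

theorem chi_one (h : Pl C Γ v x0 w p q t0 D) : chi p q x0 t0 1 = 1 := by
  show p x0 + t0 * q x0 = 1
  rw [h.px, h.qx]
  ring

theorem chi_mul (h : Pl C Γ v x0 w p q t0 D) (hT : T ∈ Γ)
    (hd : LinearMap.det (T : (Fin 3 → ℝ) →ₗ[ℝ] (Fin 3 → ℝ)) = 1) :
    chi p q x0 t0 (T * T') = chi p q x0 t0 T * chi p q x0 t0 T' := by
  show p (T (T' x0)) + t0 * q (T (T' x0)) = _
  rw [h.eig hT hd]
  rfl

theorem tau_mul (h : Pl C Γ v x0 w p q t0 D) (hT : T ∈ Γ)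
    (hd : LinearMap.det (T : (Fin 3 → ℝ) →ₗ[ℝ] (Fin 3 → ℝ)) = 1) :
    q ((T * T') x0) = q (T x0) * chi p q x0 t0 T' + (chi p q x0 t0 T)⁻¹ * q (T' x0) := by
  show q (T (T' x0)) = _
  rw [h.qT hT hd]
  rfl

/-- the gap of the eigenvalues -/
theorem gap (h : Pl C Γ v x0 w p q t0 D) (hT : T ∈ Γ)
    (hd : LinearMap.det (T : (Fin 3 → ℝ) →ₗ[ℝ] (Fin 3 → ℝ)) = 1)
    (h1 : 1 < chi p q x0 t0 T) : 2 ≤ chi p q x0 t0 T := by
  by_contra h2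
  push Not at h2
  obtain ⟨m, hm⟩ := (det_int _ (h.fx.lat T hT)).2
  have h3 := h.tr T hT
  rw [hm] at h3
  have h4 := h.other hT hd
  have h5 : (m : ℝ) - 1 = chi p q x0 t0 T + (chi p q x0 t0 T)⁻¹ := by
    rw [← h4, h3, chi]
    ring
  have hc0 := h.chi_pos hT
  obtain ⟨c, hc⟩ : ∃ c, c = chi p q x0 t0 T := ⟨_, rfl⟩
  rw [← hc] at h5 h1 h2 hc0
  have h6 : c + c⁻¹ < 3 := by
    have : c⁻¹ < 1 := inv_lt_one_of_one_lt₀ h1
    linarith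
  have h7 : 2 < c + c⁻¹ := by
    have h8 : c + c⁻¹ - 2 = (c - 1) ^ 2 / c := by
      field_simp
      ring
    have h9 : 0 < (c - 1) ^ 2 / c := div_pos (by nlinarith) hc0
    linarith
  rw [← h5] at h6 h7
  have h8 : (m : ℝ) < 4 := by linarith
  have h9 : (3 : ℝ) < m := by linarith
  have h10 : m < 4 := by exact_mod_cast h8
  have h11 : 3 < m := by exact_mod_cast h9
  omega

/-- an element with both invariants trivial is trivial -/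
theorem triv (h : Pl C Γ v x0 w p q t0 D) (hT : T ∈ Γ)
    (hd : LinearMap.det (T : (Fin 3 → ℝ) →ₗ[ℝ] (Fin 3 → ℝ)) = 1)
    (h1 : chi p q x0 t0 T = 1) (h2 : q (T x0) = 0) : T = 1 := by
  refine h.fx.faithful hT fun x => ?_
  have h3 := h.eig hT hd x
  have h4 := h.qT hT hd x
  rw [h1, h2, inv_one, zero_mul, zero_add, one_mul] at h4
  rw [h1, one_mul, h4] at h3
  have h5 : p (T x) = p x := by linarith
  obtain ⟨r, hr⟩ := h.ex x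
  obtain ⟨r', hr'⟩ := h.ex (T x)
  refine ⟨r' - r, ?_⟩
  rw [hr', h4, h5, sub_smul]
  conv_rhs => rw [hr]
  abel

end one

/-- the eigenvalue cannot be trivial on a nontrivial element if it is not trivial on the group -/
theorem tau_zero (h : Pl C Γ v x0 w p q t0 D) {S T : (Fin 3 → ℝ) ≃ₗ[ℝ] (Fin 3 → ℝ)}
    (hS : S ∈ Γ) (hSd : LinearMap.det (S : (Fin 3 → ℝ) →ₗ[ℝ] (Fin 3 → ℝ)) = 1) (hT : T ∈ Γ)
    (hTd : LinearMap.det (T : (Fin 3 → ℝ) →ₗ[ℝ] (Fin 3 → ℝ)) = 1)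
    (hc : chi p q x0 t0 S < 1) (h1 : chi p q x0 t0 T = 1) : q (T x0) = 0 := by
  have hdet : ∀ U V : (Fin 3 → ℝ) ≃ₗ[ℝ] (Fin 3 → ℝ),
      LinearMap.det ((U * V : (Fin 3 → ℝ) ≃ₗ[ℝ] (Fin 3 → ℝ)) : (Fin 3 → ℝ) →ₗ[ℝ] (Fin 3 → ℝ)) =
        LinearMap.det (U : (Fin 3 → ℝ) →ₗ[ℝ] (Fin 3 → ℝ)) *
          LinearMap.det (V : (Fin 3 → ℝ) →ₗ[ℝ] (Fin 3 → ℝ)) := by
    intro U V
    rw [← map_mul]
    rfl
  have hone : LinearMap.det ((1 : (Fin 3 → ℝ) ≃ₗ[ℝ] (Fin 3 → ℝ)) :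
      (Fin 3 → ℝ) →ₗ[ℝ] (Fin 3 → ℝ)) = 1 := map_one _
  have key : ∀ n : ℕ, q ((S⁻¹ ^ n * T * S ^ n) x0) = (chi p q x0 t0 S ^ 2) ^ n * q (T x0) ∧
      chi p q x0 t0 (S⁻¹ ^ n * T * S ^ n) = 1 ∧ S⁻¹ ^ n * T * S ^ n ∈ Γ ∧
      LinearMap.det ((S⁻¹ ^ n * T * S ^ n : (Fin 3 → ℝ) ≃ₗ[ℝ] (Fin 3 → ℝ)) :
        (Fin 3 → ℝ) →ₗ[ℝ] (Fin 3 → ℝ)) = 1 := by
    intro n
    induction n with
    | zero =>
      rw [pow_zero, pow_zero, one_mul, mul_one, pow_zero, one_mul]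
      exact ⟨rfl, h1, hT, hTd⟩
    | succ n ih =>
      obtain ⟨U, hU⟩ : ∃ U, U = S⁻¹ ^ n * T * S ^ n := ⟨_, rfl⟩
      have e1 : S⁻¹ ^ (n + 1) * T * S ^ (n + 1) = S⁻¹ * (U * S) := by
        rw [hU, pow_succ', pow_succ]
        simp only [mul_assoc]
      rw [← hU] at ih
      obtain ⟨i1, i2, i3, i4⟩ := ih
      rw [e1]
      have hSi := Γ.inv_mem hS
      have hSid : LinearMap.det ((S⁻¹ : (Fin 3 → ℝ) ≃ₗ[ℝ] (Fin 3 → ℝ)) :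
          (Fin 3 → ℝ) →ₗ[ℝ] (Fin 3 → ℝ)) = 1 := by
        have h2 := hdet S⁻¹ S
        rw [inv_mul_cancel, hSd, mul_one, hone] at h2
        exact h2.symm
      have hUSd : LinearMap.det ((U * S : (Fin 3 → ℝ) ≃ₗ[ℝ] (Fin 3 → ℝ)) :
          (Fin 3 → ℝ) →ₗ[ℝ] (Fin 3 → ℝ)) = 1 := by rw [hdet, i4, hSd, one_mul]
      have c1 := h.chi_mul (T' := S) hSi hSid
      rw [inv_mul_cancel, h.chi_one] at c1
      have c2 := h.tau_mul (T' := S) hSi hSid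
      rw [inv_mul_cancel] at c2
      have c3 : q ((1 : (Fin 3 → ℝ) ≃ₗ[ℝ] (Fin 3 → ℝ)) x0) = 0 := h.qx
      rw [c3] at c2
      have c4 := h.tau_mul (T' := S) i3 i4
      rw [i2, inv_one, one_mul, i1] at c4
      have c5 := h.chi_mul (T' := S) i3 i4
      rw [i2, one_mul] at c5
      have c6 := h.tau_mul (T' := U * S) hSi hSid
      have c7 := h.chi_mul (T' := U * S) hSi hSid
      rw [c5] at c6 c7
      rw [c4] at c6
      have hp := h.chi_pos hS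
      have c8 : (chi p q x0 t0 S⁻¹)⁻¹ = chi p q x0 t0 S :=
        inv_eq_of_mul_eq_one_right c1.symm
      rw [c8] at c2 c6
      refine ⟨?_, ?_, Γ.mul_mem hSi (Γ.mul_mem i3 hS), ?_⟩
      · rw [c6, pow_succ]
        linear_combination -c2
      · rw [c7, ← c1]
      · rw [hdet, hSid, hUSd, one_mul]
  by_contra h0
  have hp := h.chi_pos hS
  have hlt : chi p q x0 t0 S ^ 2 < 1 := by nlinarith
  have hlim : Tendsto (fun n : ℕ => |(D : ℝ)| * |(chi p q x0 t0 S ^ 2) ^ n * q (T x0)|) atTop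
      (𝓝 0) := by
    have h2 := (tendsto_pow_atTop_nhds_zero_of_lt_one (by positivity) hlt).mul_const (q (T x0))
    rw [zero_mul] at h2
    have h3 := (h2.abs).const_mul |(D : ℝ)|
    rwa [abs_zero, mul_zero] at h3
  obtain ⟨n, hn⟩ := ((tendsto_order.1 hlim).2 1 one_pos).exists
  obtain ⟨k1, -, k3, -⟩ := key n
  obtain ⟨m, hm⟩ := h.den _ k3
  rw [k1] at hm
  rw [← abs_mul, hm] at hn
  have hm0 : m = 0 := by
    have : |m| < 1 := by exact_mod_cast hn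
    exact abs_eq_zero.1 (by have := abs_nonneg m; omega)
  rw [hm0, Int.cast_zero] at hm
  have hD : (D : ℝ) ≠ 0 := by exact_mod_cast h.D0
  have h4 := (mul_eq_zero.1 hm).resolve_left hD
  have h5 : ((chi p q x0 t0 S ^ 2) ^ n) ≠ 0 := by positivity
  exact h0 ((mul_eq_zero.1 h4).resolve_left h5)

end Pl

/-- **The group is virtually cyclic.** -/
theorem virtually_cyclic (h : Fx C Γ v) : ∃ H : Subgroup Γ, H.FiniteIndex ∧ IsCyclic H := by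
  by_cases hv : v ∈ interior C
  · have := h.finite hv
    exact ⟨⊥, inferInstance, inferInstance⟩
  obtain ⟨x0, w, p, q, t0, D, hP⟩ := exists_pl h hv
  refine ⟨Pl.sub1 Γ, hP.sub1_finiteIndex, ?_⟩
  have hmem : ∀ T : Pl.sub1 Γ, ((T : Γ) : (Fin 3 → ℝ) ≃ₗ[ℝ] (Fin 3 → ℝ)) ∈ Γ ∧
      LinearMap.det (((T : Γ) : (Fin 3 → ℝ) ≃ₗ[ℝ] (Fin 3 → ℝ)) :
        (Fin 3 → ℝ) →ₗ[ℝ] (Fin 3 → ℝ)) = 1 := fun T => ⟨(T : Γ).2, Pl.mem_sub1 T.2⟩
  by_cases hA : ∀ T : Pl.sub1 Γ, Pl.chi p q x0 t0 ((T : Γ) : (Fin 3 → ℝ) ≃ₗ[ℝ] (Fin 3 → ℝ)) = 1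
  · -- unipotent case
    choose m hm using fun T : Pl.sub1 Γ => hP.den _ (hmem T).1
    have hD : (D : ℝ) ≠ 0 := by exact_mod_cast hP.D0
    obtain ⟨f, hf⟩ : ∃ f : Pl.sub1 Γ →* Multiplicative ℤ, ∀ T, f T = Multiplicative.ofAdd (m T) := by
      refine ⟨MonoidHom.mk' (fun T => Multiplicative.ofAdd (m T)) fun T T' => ?_, fun _ => rfl⟩
      rw [← ofAdd_add]
      congr 1
      have h1 := hP.tau_mul (T' := ((T' : Γ) : (Fin 3 → ℝ) ≃ₗ[ℝ] (Fin 3 → ℝ))) (hmem T).1 (hmem T).2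
      rw [hA T, hA T', mul_one, inv_one, one_mul] at h1
      have h2 : ((m (T * T') : ℤ) : ℝ) = ((m T + m T' : ℤ) : ℝ) := by
        rw [Int.cast_add, ← hm, ← hm, ← hm, ← mul_add, ← h1]
        rfl
      exact_mod_cast h2
    refine isCyclic_of_injective f fun T T' hTT' => ?_
    rw [← mul_inv_eq_one]
    have h1 : f (T * T'⁻¹) = 1 := by rw [map_mul, map_inv, hTT', mul_inv_cancel]
    rw [hf] at h1
    have h2 : m (T * T'⁻¹) = 0 := h1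
    have h3 := hm (T * T'⁻¹)
    rw [h2, Int.cast_zero] at h3
    have h4 := (mul_eq_zero.1 h3).resolve_left hD
    have h5 := hP.triv (hmem (T * T'⁻¹)).1 (hmem (T * T'⁻¹)).2 (hA _) h4
    exact Subtype.ext (Subtype.ext h5)
  · -- hyperbolic case
    push Not at hA
    obtain ⟨S, hS⟩ := hA
    have hex : ∃ S : (Fin 3 → ℝ) ≃ₗ[ℝ] (Fin 3 → ℝ), S ∈ Γ ∧
        LinearMap.det (S : (Fin 3 → ℝ) →ₗ[ℝ] (Fin 3 → ℝ)) = 1 ∧ Pl.chi p q x0 t0 S < 1 := by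
      rcases lt_or_gt_of_ne hS with h1 | h1
      · exact ⟨_, (hmem S).1, (hmem S).2, h1⟩
      · refine ⟨_, (hmem S⁻¹).1, (hmem S⁻¹).2, ?_⟩
        have h2 := hP.chi_mul (T' := ((S⁻¹ : Pl.sub1 Γ) : (Fin 3 → ℝ) ≃ₗ[ℝ] (Fin 3 → ℝ)))
          (hmem S).1 (hmem S).2
        have h3 : ((S : Γ) : (Fin 3 → ℝ) ≃ₗ[ℝ] (Fin 3 → ℝ)) *
            (((S⁻¹ : Pl.sub1 Γ) : Γ) : (Fin 3 → ℝ) ≃ₗ[ℝ] (Fin 3 → ℝ)) = 1 := by
          have h4 : (((S * S⁻¹ : Pl.sub1 Γ) : Γ) : (Fin 3 → ℝ) ≃ₗ[ℝ] (Fin 3 → ℝ)) = 1 := by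
            rw [mul_inv_cancel]
            rfl
          exact h4
        rw [h3, hP.chi_one] at h2
        have h4 := hP.chi_pos (hmem S⁻¹).1
        nlinarith
    obtain ⟨S1, hS1, hS1d, hS1c⟩ := hex
    have hinj : ∀ T : Pl.sub1 Γ,
        Pl.chi p q x0 t0 ((T : Γ) : (Fin 3 → ℝ) ≃ₗ[ℝ] (Fin 3 → ℝ)) = 1 → T = 1 := by
      intro T hT
      have h1 := hP.tau_zero hS1 hS1d (hmem T).1 (hmem T).2 hS1c hT
      exact Subtype.ext (Subtype.ext (hP.triv (hmem T).1 (hmem T).2 hT h1))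
    obtain ⟨f, hf⟩ : ∃ f : Additive (Pl.sub1 Γ) →+ ℝ, ∀ T : Pl.sub1 Γ, f (Additive.ofMul T) =
        Real.log (Pl.chi p q x0 t0 ((T : Γ) : (Fin 3 → ℝ) ≃ₗ[ℝ] (Fin 3 → ℝ))) := by
      refine ⟨AddMonoidHom.mk' (fun T => Real.log (Pl.chi p q x0 t0
        ((T.toMul : Γ) : (Fin 3 → ℝ) ≃ₗ[ℝ] (Fin 3 → ℝ)))) fun T T' => ?_, fun _ => rfl⟩
      rw [← Real.log_mul (hP.chi_pos (hmem _).1).ne' (hP.chi_pos (hmem _).1).ne',
        ← hP.chi_mul (hmem T.toMul).1 (hmem T.toMul).2]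
      rfl
    rcases AddSubgroup.dense_or_cyclic f.range with hdense | ⟨a, ha⟩
    · exfalso
      obtain ⟨s, ⟨T, rfl⟩, ⟨hs0, hs1⟩⟩ := hdense.exists_mem_open (isOpen_Ioo (a := (0 : ℝ))
        (b := Real.log 2)) ⟨Real.log 2 / 2, by
          have := Real.log_pos one_lt_two
          constructor <;> linarith⟩
      have h1 := hf T.toMul
      have hpos := hP.chi_pos (hmem T.toMul).1
      rw [show Additive.ofMul T.toMul = T from rfl] at h1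
      rw [h1] at hs0 hs1
      have h2 : 1 < Pl.chi p q x0 t0 ((T.toMul : Γ) : (Fin 3 → ℝ) ≃ₗ[ℝ] (Fin 3 → ℝ)) :=
        (Real.log_pos_iff hpos.le).1 hs0
      have h3 := (Real.log_lt_log_iff hpos two_pos).1 hs1
      have h4 := hP.gap (hmem T.toMul).1 (hmem T.toMul).2 h2
      linarith
    · have h1 : a ∈ f.range := by
        rw [ha]
        exact AddSubgroup.subset_closure rfl
      obtain ⟨U, hU⟩ := h1
      refine ⟨U.toMul, fun T => ?_⟩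
      have h2 : f (Additive.ofMul T) ∈ AddSubgroup.closure {a} := by
        rw [← ha]
        exact ⟨_, rfl⟩
      obtain ⟨n, hn⟩ := AddSubgroup.mem_closure_singleton.1 h2
      rw [← hU, ← map_zsmul] at hn
      refine ⟨n, ?_⟩
      have h3 : f (Additive.ofMul (U.toMul ^ n * T⁻¹)) = 0 := by
        have h4 : Additive.ofMul (U.toMul ^ n * T⁻¹) = n • U + -(Additive.ofMul T) := rfl
        rw [h4, map_add, map_neg, hn, add_neg_cancel]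
      rw [hf] at h3
      have hpos := hP.chi_pos (hmem (U.toMul ^ n * T⁻¹)).1
      have h4 : Pl.chi p q x0 t0 (((U.toMul ^ n * T⁻¹ : Pl.sub1 Γ) : Γ) :
          (Fin 3 → ℝ) ≃ₗ[ℝ] (Fin 3 → ℝ)) = 1 := Real.eq_one_of_pos_of_log_eq_zero hpos h3
      have h5 := hinj _ h4
      exact mul_inv_eq_one.1 h5

end Pool.Agent.H59C
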