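import Pool.Agent.H59C.Num
import Pool.Agent.H59C.Cyc3
import Pool.Agent.N110.NV.Fin
import Pool.Agent.R887.NefP
import Pool.Agent.R887.Exc

/-!
Pairs which are dominated by a variety whose group of pseudo-automorphisms fixes no pseudo-effective
class except zero. The proof of `finite_img` follows `Pool.Agent.H73.MR` (`quotientsH`, by helper73) and
`Pool.Agent.N110.CC` (`quotients`, by helper110 and others).
-/

set_option autoImplicit false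
set_option linter.unusedSectionVars false
set_option linter.overlappingInstances false

open FF Module Pool.Agent.W602.GT Pool.Agent.Y172 Pool.Agent.R887 Pool.Agent.W619.PQ
open Pool.Agent.N110 Pool.Agent.N110.PA Pool.Agent.N110.NV Pool.Agent.N492.PA
open Pool.Agent.N110.CC
open Pool.Agent.N165.KM (interior_add_mem interior_smul_mem)
open Filter Topology

namespace Pool.Agent.H59C

/-- The generically finite rational map `f : X' ⇢ X` is given by the homomorphism `π` of the function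
fields. The pull back of `K_X + Δ` is at most `K_X' + Δ'` over the prime divisors `Q` of `X'`: if `P` is
the image of `Q`, a divisor over `X`, and `e` the ramification index, then the log discrepancy of
`(X, Δ)` along `P`, multiplied by `e`, is at least the log discrepancy `1 - Δ' Q` of `(X', Δ')`. -/
def PullBackAtMost {K K' : Type} [Field K] [Algebra ℂ K] [Field K'] [Algebra ℂ K'] {N N' : ℕ}
    (π : K →ₐ[ℂ] K') (y : Fin (N + 1) → K) (n : ℕ) (Δ : Place ℂ K → ℚ) (y' : Fin (N' + 1) → K')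
    (Δ' : Place ℂ K' → ℚ) : Prop :=
  ∀ Q : Place ℂ K', IsPrimeDivisor y' Q → ∀ (P : Place ℂ K) (e : ℕ), LiesOver π Q P e →
    ∃ α : ℚ, LogDisc y n Δ P α ∧ 1 - Δ' Q ≤ e * α

/-- The class of the `ℚ`-divisor `D` in `N¹(X) ⊗ ℝ = ℝ ^ ρ`. -/
noncomputable def realClass {K : Type} [Field K] [Algebra ℂ K] {N ρ : ℕ} (y : Fin (N + 1) → K)
    (c : Place ℂ K → Fin ρ → ℤ) (D : Place ℂ K → ℚ) : Fin ρ → ℝ :=
  fun i => (cls y (fun P i => (c P i : ℚ)) D i : ℝ)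

section

variable {K : Type} [Field K] [Algebra ℂ K] {N n ρ : ℕ} {y : Fin (N + 1) → K}
  {c : Place ℂ K → Fin ρ → ℤ}

theorem CE_sub (hy : NormalModel y) (hc : PicardBasis y c) :
    CE y c ⊆ closure (effCone y c) := by
  obtain ⟨i, hi⟩ := hy.ne
  obtain ⟨Hy, hHe, hH⟩ := exists_hyp hy hi
  obtain ⟨h, hh⟩ : ∃ h, h = toR (cls y (cQ c) Hy) := ⟨_, rfl⟩
  have hpc := pc_eff hc.numClasses
  have hint : h ∈ interior (CE y c) := hh ▸ hyp_intN hy hc hi hHe hH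
  obtain ⟨-, hE2⟩ := Pool.Agent.N40.CC.leafEFF K N ρ y hy c hc
  intro x hx
  have h1 : Tendsto (fun k : ℕ => x + (1 / ((k : ℝ) + 1)) • h) atTop (𝓝 (x + (0 : ℝ) • h)) :=
    tendsto_const_nhds.add (tendsto_one_div_add_atTop_nhds_zero_nat.smul_const _)
  rw [zero_smul, add_zero] at h1
  refine mem_closure_of_tendsto h1 (Eventually.of_forall fun k => hE2 ?_)
  rw [add_comm x]
  exact interior_add_mem hpc.add (interior_smul_mem hpc.smul (by positivity) hint) hx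

/-- the pull backs preserve the closed effective cone and the lattice -/
theorem pull_pres (hy : NormalModel y) (hc : PicardBasis y c) {ψ : K ≃ₐ[ℂ] K}
    (hψ : PseudoAut ψ y) {T : (Fin ρ → ℝ) ≃ₗ[ℝ] (Fin ρ → ℝ)} (hT : IsPullBack y c ψ T) :
    (∀ x ∈ CE y c, T x ∈ CE y c) ∧ ∀ x, IsInt x → IsInt (T x) := by
  obtain ⟨M, hM⟩ := exists_rep hy hc (𝒮 := psGroup y) (fun _ h => h)
  have h1 : T = hM.TE ⟨ψ, hψ⟩ := pull_ext hc hT (hM.isPull ⟨ψ, hψ⟩)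
  rw [h1]
  refine ⟨fun x hx => ?_, fun x hx => ?_⟩
  · rw [hM.TE_apply]
    exact pres_S hy hc hM ψ hψ x hx
  · rw [hM.TE_apply]
    exact TR_int _ hx

theorem interior_CE (hy : NormalModel y) (hc : PicardBasis y c) : (interior (CE y c)).Nonempty := by
  obtain ⟨i, hi⟩ := hy.ne
  obtain ⟨Hy, hHe, hH⟩ := exists_hyp hy hi
  exact ⟨_, hyp_intN hy hc hi hHe hH⟩

/-- a multiple of a rational vector is integral -/
theorem exists_mul_int (q : Fin ρ → ℚ) : ∃ d : ℕ, 0 < d ∧ IsInt ((d : ℝ) • toR q) := by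
  refine ⟨∏ i, (q i).den, Finset.prod_pos fun i _ => (q i).den_pos, fun i => ?_⟩
  obtain ⟨k, hk⟩ : (q i).den ∣ ∏ i, (q i).den := Finset.dvd_prod_of_mem _ (Finset.mem_univ i)
  refine ⟨k * (q i).num, ?_⟩
  have h1 : ((∏ i, (q i).den : ℕ) : ℚ) * q i = k * (q i).num := by
    rw [hk]
    push_cast
    have h2 : ((q i).den : ℚ) * q i = (q i).num := Rat.den_mul_eq_num (q i)
    linear_combination (k : ℚ) * h2
  have h3 : (((∏ i, (q i).den : ℕ) : ℝ) • toR q) i = ((((∏ i, (q i).den : ℕ) : ℚ) * q i : ℚ) : ℝ) := by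
    rw [Pi.smul_apply, smul_eq_mul]
    push_cast
    rfl
  rw [h3, h1]
  push_cast
  rfl

/-- **Rank three.** A group which is not virtually cyclic fixes no pseudo-effective class. -/
theorem fix_three {c : Place ℂ K → Fin 3 → ℤ} (hy : NormalModel y) (hc : PicardBasis y c)
    {Γ : Subgroup ((Fin 3 → ℝ) ≃ₗ[ℝ] (Fin 3 → ℝ))}
    (hΓ : ∀ T ∈ Γ, ∃ ψ, PseudoAut ψ y ∧ IsPullBack y c ψ T)
    (hcyc : ¬ ∃ H : Subgroup Γ, H.FiniteIndex ∧ IsCyclic H) {q : Fin 3 → ℚ}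
    (hq : toR q ∈ CE y c) (hfix : ∀ T ∈ Γ, T (toR q) = toR q) : q = 0 := by
  by_contra h0
  obtain ⟨d, hd, hdi⟩ := exists_mul_int q
  have hd' : (0 : ℝ) < d := by exact_mod_cast hd
  refine hcyc (virtually_cyclic (C := CE y c) (v := (d : ℝ) • toR q) ⟨pc_eff hc.numClasses,
    interior_CE hy hc, fun T hT => ?_, fun T hT => ?_, fun T hT => ?_, hdi, ?_, ?_⟩)
  · obtain ⟨ψ, h1, h2⟩ := hΓ T hT
    exact (pull_pres hy hc h1 h2).1
  · obtain ⟨ψ, h1, h2⟩ := hΓ T hT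
    exact (pull_pres hy hc h1 h2).2
  · rw [map_smul, hfix T hT]
  · intro h1
    have h2 := (smul_eq_zero.1 h1).resolve_left hd'.ne'
    exact h0 (toR_inj (h2.trans (by funext i; simp [toR])))
  · exact (pc_eff hc.numClasses).smul _ hd'.le _ hq

/-- the class of `K_X + Δ` is fixed -/
theorem can_fixed (hy : NormalModel y) (hc : PicardBasis y c) {x : Fin n → K}
    {E : Fin n → Derivation ℂ K K} {k : Place ℂ K → ℤ} (hk : Can y x E k) {Δ : Place ℂ K → ℚ}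
    (hΔ : Fin0 y Δ) {T : (Fin ρ → ℝ) ≃ₗ[ℝ] (Fin ρ → ℝ)}
    (hT : ∃ ψ, PseudoAut ψ y ∧ IsPullBack y c ψ T) (hTΔ : T (realClass y c Δ) = realClass y c Δ) :
    T (toR (cls y (cQ c) (fun P => (k P : ℚ) + Δ P))) =
      toR (cls y (cQ c) (fun P => (k P : ℚ) + Δ P)) := by
  obtain ⟨ψ, h1, h2⟩ := hT
  have h3 := can_inv hy hc hk h1 h2
  rw [Pool.Agent.N681.CC.divClass_eq c hk.fin] at h3
  have hkf : Fin0 y (fun P => (k P : ℚ)) := fin_cast hk.fin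
  have h4 : toR (cls y (cQ c) Δ) = realClass y c Δ := rfl
  rw [cls_add hkf hΔ, toR_add, map_add, h4, hTΔ]
  congr 1

/-- the condition on the fixed classes gives the alternative for the log canonical class -/
theorem can_alt (hy : NormalModel y) (hc : PicardBasis y c) {x : Fin n → K}
    {E : Fin n → Derivation ℂ K K} {k : Place ℂ K → ℤ} (hk : Can y x E k) {Δ : Place ℂ K → ℚ}
    (hΔ : Fin0 y Δ) {𝒯 : Set ((Fin ρ → ℝ) ≃ₗ[ℝ] (Fin ρ → ℝ))}
    (h𝒯 : ∀ T ∈ 𝒯, ∃ ψ, PseudoAut ψ y ∧ IsPullBack y c ψ T)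
    (hTΔ : ∀ T ∈ 𝒯, T (realClass y c Δ) = realClass y c Δ)
    (hfix : ∀ q : Fin ρ → ℚ, toR q ∈ CE y c → (∀ T ∈ 𝒯, T (toR q) = toR q) → q = 0) :
    cls y (cQ c) (fun P => (k P : ℚ) + Δ P) = 0 ∨
      toR (cls y (cQ c) (fun P => (k P : ℚ) + Δ P)) ∉ CE y c := by
  by_cases h : toR (cls y (cQ c) (fun P => (k P : ℚ) + Δ P)) ∈ CE y c
  · exact Or.inl (hfix _ h fun T hT => can_fixed hy hc hk hΔ (h𝒯 T hT) (hTΔ T hT))
  · exact Or.inr h

end

section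

variable {K K' : Type} [Field K] [Algebra ℂ K] [Field K'] [Algebra ℂ K'] {N N' n ρ : ℕ}
  {y : Fin (N + 1) → K} {y' : Fin (N' + 1) → K'}

/-- **Dominated pairs.** -/
theorem dominated (hy : NormalModel y) (hy' : NormalModel y') (hn : Algebra.trdeg ℂ K = n)
    (hn' : Algebra.trdeg ℂ K' = n) (hn0 : 0 < n)
    {c' : Place ℂ K' → Fin ρ → ℤ} (hc' : PicardBasis y' c') {Δ' : Place ℂ K' → ℚ}
    (hΔ' : Fin0 y' Δ') {𝒯 : Set ((Fin ρ → ℝ) ≃ₗ[ℝ] (Fin ρ → ℝ))}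
    (h𝒯 : ∀ T ∈ 𝒯, ∃ ψ, PseudoAut ψ y' ∧ IsPullBack y' c' ψ T)
    (hTΔ : ∀ T ∈ 𝒯, T (realClass y' c' Δ') = realClass y' c' Δ')
    (hfix : ∀ q : Fin ρ → ℚ, toR q ∈ CE y' c' → (∀ T ∈ 𝒯, T (toR q) = toR q) → q = 0)
    {π : K →ₐ[ℂ] K'} {Δ : Place ℂ K → ℚ} (hΔ : Effective y Δ)
    (hπ : PullBackAtMost π y n Δ y' Δ') :
    NumDimLt y n Δ 1 ∧
      (IrregularityZero y → LogPsef y n Δ →
        (∃ m : ℕ, 1 ≤ m ∧ ∃ ω : (Fin n → Derivation ℂ K K) → K, ω ≠ 0 ∧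
          IsSection y n m (m • Δ) ω) ∧
        kodairaDim y n Δ = ((0 : ℕ) : WithBot ℕ) ∧
          ∀ A, Effective y A → Integral y A → numericalDim y n Δ A = ((0 : ℕ) : EReal)) ∧
      (IrregularityZero y → LogNef y n Δ → ∃ m : ℕ, 1 ≤ m ∧
        ∃ ω : (Fin n → Derivation ℂ K K) → K, IsSection y n m (m • Δ) ω ∧ ω ≠ 0 ∧
          ∀ P, IsPrimeDivisor y P → OrdEq P ω (-(m * Δ P))) := by
  obtain ⟨x', E', k', h'⟩ := exists_can hy' hn'
  have h1 := numDim_zero hy' hn' hn0 hc' h' hΔ' (can_alt hy' hc' h' hΔ' h𝒯 hTΔ hfix)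
  have h2 : NumDimLt y n Δ 1 := IM.numDimLt_img hy hy' hn hn' π hπ hn0 h1
  refine ⟨h2, fun hq hpsef => ?_, fun hq hnef => ?_⟩
  · obtain ⟨m, hm, ω, hω0, hω⟩ := NV.nonvanishing hy hn hn0 hΔ.2 hpsef h2 hq
    exact ⟨⟨m, hm, ω, hω0, hω⟩, abundance_zero hy hn hn0 hΔ h2 hm hω hω0⟩
  · obtain ⟨m, hm, ω, hω0, hω⟩ := NV.nonvanishing hy hn hn0 hΔ.2
      (NV.psef_of_nef hy hn hn0 hnef) h2 hq
    exact ⟨m, hm, ω, hω, hω0, fun P hP => nef_trivialP hy hn hn0 h2 hnef hm hω hω0 P hP⟩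

/-- **Finite images.** -/
theorem finite_img (hy : NormalModel y) (hy' : NormalModel y') (hn : Algebra.trdeg ℂ K = n)
    (hn' : Algebra.trdeg ℂ K' = n) (hn0 : 0 < n)
    {c' : Place ℂ K' → Fin ρ → ℤ} (hc' : PicardBasis y' c') {Δ' : Place ℂ K' → ℚ}
    (hΔ' : Fin0 y' Δ') {𝒯 : Set ((Fin ρ → ℝ) ≃ₗ[ℝ] (Fin ρ → ℝ))}
    (h𝒯 : ∀ T ∈ 𝒯, ∃ ψ, PseudoAut ψ y' ∧ IsPullBack y' c' ψ T)
    (hTΔ : ∀ T ∈ 𝒯, T (realClass y' c' Δ') = realClass y' c' Δ')
    (hfix : ∀ q : Fin ρ → ℚ, toR q ∈ CE y' c' → (∀ T ∈ 𝒯, T (toR q) = toR q) → q = 0)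
    {π : K →ₐ[ℂ] K'} (hπ : FiniteMap π y y') {Δ : Place ℂ K → ℚ}
    (hΔ : {P | IsPrimeDivisor y P ∧ Δ P ≠ 0}.Finite)
    (hbr : ∀ Q P e, IsPrimeDivisor y' Q → LiesOver π Q P e → 1 - Δ' Q ≤ (e : ℚ) * (1 - Δ P))
    (hps : LogPsef y n Δ) :
    LogAntiPsef y n Δ ∧ (IrregularityZero y → LogTorsion y n Δ) := by
  have hess := hy.ess
  have hess' := hy'.ess
  obtain ⟨x, E, hx, hE⟩ := exists_crd hn (k := ℂ) (K := K)
  have hfr : IsFrame E := fun F => ⟨fun j => F (x j),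
    (Pool.Agent.W73.PG.PULL.expand x hx E hE F).symm⟩
  obtain ⟨k, hkf, hk⟩ := exists_ordc hy hn hx hE
  have h : Can y x E k := ⟨hfr, hE, hkf, hk⟩
  obtain ⟨x', E', k', h'⟩ := exists_can hy' hn'
  obtain ⟨J, hJ0, hJ⟩ := can_pull hy hy' hn hn' hx h h' hπ
  have hpc := pc_eff hc'.numClasses
  obtain ⟨L', hL', hrel, h1⟩ := Pool.Agent.N340.CC.leafPSUP K K' N N' n y y' hy hy' hn hn' hn0 π hπ
    (fun P => -((k P : ℚ) + Δ P)) (fin_neg (h.finD hΔ))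
  obtain ⟨L'', hL'', hrel', h1'⟩ := Pool.Agent.N340.CC.leafPSUP K K' N N' n y y' hy hy' hn hn' hn0 π
    hπ (fun P => (k P : ℚ) + Δ P) (h.finD hΔ)
  let _ : Algebra K K' := π.toRingHom.toAlgebra
  have hst : IsScalarTower ℂ K K' :=
    IsScalarTower.of_algebraMap_eq fun c => (π.commutes c).symm
  have hfd : FiniteDimensional K K' := finite_map hn hn'
  have hov : ∀ Q : Place ℂ K', LiesOver π Q (bel K Q) (ram K Q) := fun Q => over_bel K Q
  have hJf : Fin0 y' (fun Q => (Q.ord J : ℚ)) := fin_cast (finite_ord hy' hJ0)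
  have hk'f : Fin0 y' (fun Q => (k' Q : ℚ) + Δ' Q) := h'.finD hΔ'
  have hR : Effective y' (fun Q => (((k' Q : ℚ) + Δ' Q) + (Q.ord J : ℚ)) + L' Q) := by
    refine ⟨fun Q hQ => ?_, Fin0.add (Fin0.add hk'f hJf) hL'⟩
    have h2 := hJ Q _ _ hQ (hov Q)
    have h3 := hbr Q _ _ hQ (hov Q)
    have h4 := hrel Q _ _ hQ (hov Q)
    have h5 : (((ram K Q : ℤ) - 1 + ram K Q * k (bel K Q) : ℤ) : ℚ) ≤ ((k' Q + Q.ord J : ℤ) : ℚ) := by
      exact_mod_cast h2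
    push_cast at h5
    beta_reduce
    rw [h4]
    linarith
  have hcls : cls y' (cQ c') (fun Q => (((k' Q : ℚ) + Δ' Q) + (Q.ord J : ℚ)) + L' Q) =
      cls y' (cQ c') (fun Q => (k' Q : ℚ) + Δ' Q) + cls y' (cQ c') L' := by
    have h2 : cls y' (cQ c') (fun Q => (Q.ord J : ℚ)) = 0 := hc'.numClasses.principal J hJ0
    rw [cls_add (Fin0.add hk'f hJf) hL', cls_add hk'f hJf, h2, add_zero]
  have hce : toR (cls y' (cQ c') (fun Q => (k' Q : ℚ) + Δ' Q) + cls y' (cQ c') L') ∈ CE y' c' := by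
    rw [← hcls]
    exact subset_closure (eff_mem hR)
  have hneg : cls y' (cQ c') L'' = -cls y' (cQ c') L' := by
    rw [← cls_neg]
    refine cls_congr fun Q hQ => ?_
    rw [hrel' Q _ _ hQ (hov Q), hrel Q _ _ hQ (hov Q)]
    ring
  have hps2 : -toR (cls y' (cQ c') L') ∈ CE y' c' := by
    have h2 := Pool.Agent.N618.CC.leafPSCL K' N' ρ y' hy' (cQ c')
      hc'.numClasses.principal L'' hL'' (h1' (h.psef hps))
    rwa [hneg, toR_neg] at h2
  have hcan : cls y' (cQ c') (fun Q => (k' Q : ℚ) + Δ' Q) = 0 := by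
    refine (can_alt hy' hc' h' hΔ' h𝒯 hTΔ hfix).resolve_right fun h3 => h3 ?_
    have h4 := hpc.add _ hce _ hps2
    rw [toR_add] at h4
    rwa [add_assoc, add_neg_cancel, add_zero] at h4
  rw [hcan, zero_add] at hce
  have h0 : cls y' (cQ c') L' = 0 :=
    toR_inj ((hpc.pointed _ hce hps2).trans (by funext i; simp [toR]))
  have hA : PsefD y (fun P => -((k P : ℚ) + Δ P)) :=
    Pool.Agent.N701.CC.leafPSDN Pool.Agent.N832.CC.leafNORM Pool.Agent.N252.CC.leafPUSH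
      K K' N N' n y y' hy hy' hn hn' hn0 π hπ _ L' hrel (psef_of_zero hc'.numClasses hL' h0)
  exact ⟨h.anti hA, fun hq => h.torsion (torsion hy hq (h.finD hΔ) (h.psef hps) hA)⟩

end

end Pool.Agent.H59C
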