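import Pool.Agent.H59C.Geo

/-!
Criteria for the absence of invariant pseudo-effective classes, and the main theorems. The proof of
`fix_free` follows `Pool.Agent.H73.MR` (`can_zeroF`, by helper73).
-/

set_option autoImplicit false
set_option linter.unusedSectionVars false
set_option linter.overlappingInstances false

open FF Module Pool.Agent.W602.GT Pool.Agent.Y172 Pool.Agent.R887 Pool.Agent.W619.PQ
open Pool.Agent.N110 Pool.Agent.N110.PA Pool.Agent.N110.NV Pool.Agent.N492.PA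
open Pool.Agent.N110.CC Pool.Agent.H73.MR

namespace Pool.Agent.H59C

/-- No pseudo-effective class is fixed by the maps in `𝒯`, except zero: a rational vector `q` in
`N¹(X) ⊗ ℚ = ℚ ^ ρ` which is in the closure of the effective cone and fixed by all `T ∈ 𝒯` is zero. -/
def NoInvariantClass {K : Type} [Field K] [Algebra ℂ K] {N ρ : ℕ} (y : Fin (N + 1) → K)
    (c : Place ℂ K → Fin ρ → ℤ) (𝒯 : Set ((Fin ρ → ℝ) ≃ₗ[ℝ] (Fin ρ → ℝ))) : Prop :=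
  ∀ q : Fin ρ → ℚ, (fun i => (q i : ℝ)) ∈ closure (effCone y c) →
    (∀ T ∈ 𝒯, T (fun i => (q i : ℝ)) = fun i => (q i : ℝ)) → q = 0

/-- The group `Γ` has a cyclic subgroup of finite index. -/
def VirtuallyCyclic {ρ : ℕ} (Γ : Subgroup ((Fin ρ → ℝ) ≃ₗ[ℝ] (Fin ρ → ℝ))) : Prop :=
  ∃ H : Subgroup Γ, H.FiniteIndex ∧ IsCyclic H

/-- The elements of the group `Γ` of linear automorphisms of `N¹(X) ⊗ ℝ` are pull backs by
pseudo-automorphisms of `X`, and they fix the class of the `ℚ`-divisor `Δ`. -/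
def PullBackGroup {K : Type} [Field K] [Algebra ℂ K] {N ρ : ℕ} (y : Fin (N + 1) → K)
    (c : Place ℂ K → Fin ρ → ℤ) (Δ : Place ℂ K → ℚ)
    (Γ : Subgroup ((Fin ρ → ℝ) ≃ₗ[ℝ] (Fin ρ → ℝ))) : Prop :=
  (∀ T ∈ Γ, ∃ ψ, PseudoAut ψ y ∧ IsPullBack y c ψ T) ∧
    ∀ T ∈ Γ, T (realClass y c Δ) = realClass y c Δ

/-- The maps in `𝒯` contain a free abelian group of rank `ρ - 1 ≥ 1`. -/
def FreeOfMaximalRank {ρ : ℕ} (𝒯 : Set ((Fin ρ → ℝ) ≃ₗ[ℝ] (Fin ρ → ℝ))) : Prop :=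
  2 ≤ ρ ∧ ∃ G : (Fin (ρ - 1) → ℤ) → ((Fin ρ → ℝ) ≃ₗ[ℝ] (Fin ρ → ℝ)),
    (∀ u v, G (u + v) = G u * G v) ∧ (∀ v, v ≠ 0 → G v ≠ 1) ∧ ∀ v, G v ∈ 𝒯

/-- The set `𝒯` of linear maps is a group, `ρ ≥ 2`, and it acts cocompactly on the projectivisation of
the interior of a closed convex cone `D` of pseudo-effective classes: there is a compact set `B` in the
interior of `D` such that for every `x` in the interior of `D` some positive multiple of the image of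
`x` under some element of `𝒯` is in `B`. -/
def CocompactOnCone {K : Type} [Field K] [Algebra ℂ K] {N ρ : ℕ} (y : Fin (N + 1) → K)
    (c : Place ℂ K → Fin ρ → ℤ) (𝒯 : Set ((Fin ρ → ℝ) ≃ₗ[ℝ] (Fin ρ → ℝ))) : Prop :=
  2 ≤ ρ ∧ (∃ Γ : Subgroup ((Fin ρ → ℝ) ≃ₗ[ℝ] (Fin ρ → ℝ)), (Γ : Set _) = 𝒯) ∧
    ∃ D B : Set (Fin ρ → ℝ), IsClosed D ∧ (∀ x ∈ D, ∀ z ∈ D, x + z ∈ D) ∧
      (∀ t : ℝ, 0 ≤ t → ∀ x ∈ D, t • x ∈ D) ∧ (interior D).Nonempty ∧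
      D ⊆ closure (effCone y c) ∧ (∀ T ∈ 𝒯, ∀ x ∈ D, T x ∈ D) ∧ IsCompact B ∧ B ⊆ interior D ∧
      ∀ x ∈ interior D, ∃ T ∈ 𝒯, ∃ s : ℝ, 0 < s ∧ s • T x ∈ B

section

variable {K : Type} [Field K] [Algebra ℂ K] {N n ρ : ℕ} {y : Fin (N + 1) → K}
  {c : Place ℂ K → Fin ρ → ℤ}

/-- the log discrepancy along a prime divisor -/
theorem logDisc_prime {Δ : Place ℂ K → ℚ} {P : Place ℂ K} (hP : IsPrimeDivisor y P) {α : ℚ}
    (h : LogDisc y n Δ P α) : α ≤ 1 - Δ P := by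
  rcases h with h | ⟨r, hr, η, -, h1, h2⟩
  · exact h.2
  · obtain ⟨-, E, hE, h0, he⟩ := h1 P hP (fun f hf => localRing_reg hf)
    have h3 := (h2 E hE).resolve_left h0
    rw [he] at h3
    have hr' : (0 : ℚ) < r := by exact_mod_cast hr
    have h4 : (r : ℚ) * (α - 1) ≤ r * (-Δ P) := by linarith
    have h5 := le_of_mul_le_mul_left h4 hr'
    linarith

/-- a divisor with a section is pseudo-effective -/
theorem psef_of_section (hy : NormalModel y) (hn : Algebra.trdeg ℂ K = n) {Δ : Place ℂ K → ℚ}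
    {m : ℕ} (hm : 1 ≤ m) {ω : (Fin n → Derivation ℂ K K) → K} (hω0 : ω ≠ 0)
    (hω : IsSection y n m (m • Δ) ω) : LogPsef y n Δ := by
  obtain ⟨x, E, k, hk⟩ := exists_can hy hn
  obtain ⟨i0, hi0⟩ := hy.ne
  obtain ⟨Hy, hHe, hH⟩ := exists_hyp hy hi0
  have hE0 : ω E ≠ 0 := fun h0 => hω0 (pluri_zero hk.frame hω.1 h0)
  refine hk.logPsef fun i hi q hq => ⟨m, hm, (ω E) ^ q, pow_ne_zero _ hE0, fun P l hP hl => ?_⟩
  obtain ⟨Hi, hHie, hHi⟩ := exists_hyp hy hi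
  have h1 := ((hk.ord P hP m ω hω.1 _).1 (hω.2 P hP)).resolve_left hE0
  have h2 : (m • Δ : Place ℂ K → ℚ) P = m * Δ P := by
    rw [Pi.smul_apply, nsmul_eq_mul]
  rw [h2] at h1
  have h3 := hHie.1 P hP
  rw [hHi P l hP hl] at h3
  rw [P.ord_pow]
  push_cast
  have hmq : (0 : ℚ) ≤ m := Nat.cast_nonneg _
  have hqq : (0 : ℚ) ≤ q := Nat.cast_nonneg _
  have h4 := mul_nonneg hqq (by linarith : (0 : ℚ) ≤ P.ord (ω E) + m * ((k P : ℚ) + Δ P))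
  have h5 := mul_nonneg hmq h3
  nlinarith

/-- the Kodaira dimension is not `⊥` only if the divisor is pseudo-effective -/
theorem psef_of_kodaira (hy : NormalModel y) (hn : Algebra.trdeg ℂ K = n) {Δ : Place ℂ K → ℚ}
    (h : kodairaDim y n Δ ≠ ⊥) : LogPsef y n Δ := by
  classical
  unfold kodairaDim at h
  split_ifs at h with h1
  · exact (h rfl).elim
  · push Not at h1
    obtain ⟨m, hm, -, h2⟩ := h1
    have h3 : ∃ ω : (Fin n → Derivation ℂ K K) → K, ω ≠ 0 ∧ IsSection y n m (m • Δ) ω := by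
      by_contra hcon
      push Not at hcon
      apply h2
      unfold h0
      have h4 : Submodule.span ℂ {ω | IsSection y n m (m • Δ) ω} = ⊥ := by
        rw [Submodule.span_eq_bot]
        intro ω hω
        by_contra h0
        exact hcon ω h0 hω
      rw [h4, finrank_bot]
    obtain ⟨ω, h4, h5⟩ := h3
    exact psef_of_section hy hn hm h4 h5

/-- fixed vectors, if the group contains a free abelian group of maximal rank -/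
theorem fix_free {r : ℕ} {c : Place ℂ K → Fin (r + 1) → ℤ} (hy : NormalModel y) (hr : 0 < r)
    (hc : PicardBasis y c)
    {G : (Fin r → ℤ) → ((Fin (r + 1) → ℝ) ≃ₗ[ℝ] (Fin (r + 1) → ℝ))}
    (hG : ∀ u v, G (u + v) = G u * G v) (hG1 : ∀ v, v ≠ 0 → G v ≠ 1)
    (hGP : ∀ v, ∃ ψ, PseudoAut ψ y ∧ IsPullBack y c ψ (G v)) {x : Fin (r + 1) → ℝ}
    (hx : ∀ v, G v x = x) : x = 0 := by
  classical
  obtain ⟨A, hA, W, b, st⟩ := exists_strF hy hr hc hG hG1 hGP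
  apply b.repr.injective
  rw [map_zero]
  ext ℓ
  rw [Finsupp.zero_apply]
  obtain ⟨v, hv, -⟩ := st.exists_dir ℓ
  have h3 := st.repr_G v x ℓ
  have h4 : TR (A v) x = x := by rw [hA, hx]
  rw [h4] at h3
  have h5 : 1 < Real.exp (ev ℓ.1 v) := Real.one_lt_exp_iff.2 hv
  by_contra h6
  have h7 : Real.exp (ev ℓ.1 v) = 1 := mul_right_cancel₀ h6 (by rw [one_mul]; exact h3.symm)
  linarith

theorem noInv_free {𝒯 : Set ((Fin ρ → ℝ) ≃ₗ[ℝ] (Fin ρ → ℝ))} (hy : NormalModel y)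
    (hc : PicardBasis y c) (h𝒯 : ∀ T ∈ 𝒯, ∃ ψ, PseudoAut ψ y ∧ IsPullBack y c ψ T)
    (h : FreeOfMaximalRank 𝒯) : NoInvariantClass y c 𝒯 := by
  obtain ⟨hρ, G, hG, hG1, hGT⟩ := h
  obtain ⟨r, rfl⟩ : ∃ r, ρ = r + 1 := ⟨ρ - 1, by omega⟩
  intro q _ hq
  have h1 := fix_free (r := r) hy (by omega) hc hG hG1 (fun v => h𝒯 _ (hGT v))
    (x := fun i => (q i : ℝ)) fun v => hq _ (hGT v)
  funext i
  have h2 : (q i : ℝ) = 0 := congrFun h1 i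
  exact_mod_cast h2

theorem noInv_coc {𝒯 : Set ((Fin ρ → ℝ) ≃ₗ[ℝ] (Fin ρ → ℝ))} (hy : NormalModel y)
    (hc : PicardBasis y c) (h𝒯 : ∀ T ∈ 𝒯, ∃ ψ, PseudoAut ψ y ∧ IsPullBack y c ψ T)
    (h : CocompactOnCone y c 𝒯) : NoInvariantClass y c 𝒯 := by
  classical
  obtain ⟨hρ, ⟨Γ, rfl⟩, D, B, h1, h2, h3, h4, h5, h6, h7, h8, h9⟩ := h
  -- the group of pseudo-automorphisms
  obtain ⟨M, hM⟩ := exists_rep hy hc (𝒮 := psGroup y) (fun _ h => h)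
  obtain ⟨𝒮, h𝒮⟩ : ∃ 𝒮 : Subgroup (K ≃ₐ[ℂ] K), ∀ ψ, ψ ∈ 𝒮 ↔
      ∃ h : PseudoAut ψ y, hM.TE ⟨ψ, h⟩ ∈ Γ := by
    obtain ⟨f, hf⟩ : ∃ f : psGroup y →* ((Fin ρ → ℝ) ≃ₗ[ℝ] (Fin ρ → ℝ)), ∀ ψ, f ψ = hM.TE ψ :=
      ⟨MonoidHom.mk' (fun ψ => hM.TE ψ) fun a b => hM.TE_mul a b, fun _ => rfl⟩
    refine ⟨(Γ.comap f).map (psGroup y).subtype, fun ψ => ?_⟩
    constructor
    · rintro ⟨φ, hφ, rfl⟩
      refine ⟨φ.2, ?_⟩
      have := (Subgroup.mem_comap.1 hφ)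
      rwa [hf] at this
    · rintro ⟨h, hT⟩
      exact ⟨⟨ψ, h⟩, by
        show f ⟨ψ, h⟩ ∈ Γ
        rwa [hf], rfl⟩
  have hmem : ∀ T ∈ Γ, ∃ ψ ∈ 𝒮, IsPullBack y c ψ T := by
    intro T hT
    obtain ⟨ψ, hψ, hψT⟩ := h𝒯 T hT
    refine ⟨ψ, (h𝒮 ψ).2 ⟨hψ, ?_⟩, hψT⟩
    rwa [← pull_ext hc hψT (hM.isPull ⟨ψ, hψ⟩)]
  have hmem' : ∀ ψ ∈ 𝒮, ∀ T, IsPullBack y c ψ T → T ∈ Γ := by
    intro ψ hψ T hT
    obtain ⟨h, hT'⟩ := (h𝒮 ψ).1 hψ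
    rwa [pull_ext hc hT (hM.isPull ⟨ψ, h⟩)]
  have hcoc : CocAct y c 𝒮 D B :=
    ⟨fun ψ hψ => ((h𝒮 ψ).1 hψ).1, h1, h2, h3, h5, h4,
      fun ψ hψ T hT => h6 T (hmem' ψ hψ T hT), h7, h8, fun x hx => by
        obtain ⟨T, hT, s, hs, hsB⟩ := h9 x hx
        obtain ⟨ψ, hψ, hψT⟩ := hmem T hT
        exact ⟨ψ, hψ, T, hψT, s, hs, hsB⟩⟩
  intro q _ hq
  obtain ⟨M', hM', hC⟩ := hcoc.exists_coc hy hc
  obtain ⟨d, hd, hdi⟩ := exists_mul_int q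
  have hd' : (0 : ℝ) < d := by exact_mod_cast hd
  have h10 := hC.fixed hρ hdi (by
    rintro _ ⟨ψ, hψ, rfl⟩
    have h11 := hq _ (hmem' ψ hψ _ (hM'.isPull ⟨ψ, hψ⟩))
    rw [hM'.TE_apply] at h11
    show TR (M' ψ) ((d : ℝ) • toR q) = _
    rw [map_smul]
    exact congrArg (fun z => (d : ℝ) • z) h11)
  have h11 := (smul_eq_zero.1 h10).resolve_left hd'.ne'
  exact toR_inj (h11.trans (by funext i; simp [toR]))

/-- **Rank three.** -/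
theorem noInv_three {c : Place ℂ K → Fin 3 → ℤ} (hy : NormalModel y) (hc : PicardBasis y c)
    {Γ : Subgroup ((Fin 3 → ℝ) ≃ₗ[ℝ] (Fin 3 → ℝ))}
    (hΓ : ∀ T ∈ Γ, ∃ ψ, PseudoAut ψ y ∧ IsPullBack y c ψ T)
    (hcyc : ¬ VirtuallyCyclic Γ) :
    NoInvariantClass y c (Γ : Set ((Fin 3 → ℝ) ≃ₗ[ℝ] (Fin 3 → ℝ))) := fun _ hq hfix =>
  fix_three hy hc hΓ hcyc (effCone_sub hy hc hq) hfix

theorem noInv_CE {𝒯 : Set ((Fin ρ → ℝ) ≃ₗ[ℝ] (Fin ρ → ℝ))} (hy : NormalModel y)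
    (hc : PicardBasis y c) (h : NoInvariantClass y c 𝒯) :
    ∀ q : Fin ρ → ℚ, toR q ∈ CE y c → (∀ T ∈ 𝒯, T (toR q) = toR q) → q = 0 :=
  fun q hq hfix => h q (CE_sub hy hc hq) hfix

end

section

variable {K K' : Type} [Field K] [Algebra ℂ K] [Field K'] [Algebra ℂ K'] {N N' n ρ : ℕ}
  {y : Fin (N + 1) → K} {y' : Fin (N' + 1) → K'}

/-- images with canonical singularities -/
theorem pullBackAtMost_canonical (hy : NormalModel y) (hy' : NormalModel y')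
    (hn : Algebra.trdeg ℂ K = n) (hn' : Algebra.trdeg ℂ K' = n) (hcan : Canonical y n)
    {π : K →ₐ[ℂ] K'} {Δ' : Place ℂ K' → ℚ} (hpos : ∀ Q, IsPrimeDivisor y' Q → 0 ≤ Δ' Q) :
    PullBackAtMost π y n 0 y' Δ' := by
  intro Q hQ P e hPe
  obtain ⟨α, h1, h2⟩ := hcan.pullBackLe hy hy' hn hn' π Q hQ (fun h => h) P e hPe
  exact ⟨α, h1, by linarith [hpos Q hQ]⟩

/-- **Pairs on the images.** -/
theorem pairs (hy : NormalModel y) (hy' : NormalModel y') (hn : Algebra.trdeg ℂ K = n)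
    (hn' : Algebra.trdeg ℂ K' = n) (hn0 : 0 < n)
    {c' : Place ℂ K' → Fin ρ → ℤ} (hc' : PicardBasis y' c') {Δ' : Place ℂ K' → ℚ}
    (hΔ' : {Q | IsPrimeDivisor y' Q ∧ Δ' Q ≠ 0}.Finite)
    {𝒯 : Set ((Fin ρ → ℝ) ≃ₗ[ℝ] (Fin ρ → ℝ))}
    (h𝒯 : ∀ T ∈ 𝒯, ∃ ψ, PseudoAut ψ y' ∧ IsPullBack y' c' ψ T)
    (hTΔ : ∀ T ∈ 𝒯, T (realClass y' c' Δ') = realClass y' c' Δ')
    (hfix : NoInvariantClass y' c' 𝒯)
    {π : K →ₐ[ℂ] K'} {Δ : Place ℂ K → ℚ} (hΔ : Effective y Δ)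
    (hπ : PullBackAtMost π y n Δ y' Δ') :
    NumDimLt y n Δ 1 ∧
      (FiniteMap π y y' → LogPsef y n Δ → LogAntiPsef y n Δ) ∧
      (IrregularityZero y →
        (LogPsef y n Δ → kodairaDim y n Δ = ((0 : ℕ) : WithBot ℕ) ∧
          ∀ A, Effective y A → Integral y A → numericalDim y n Δ A = ((0 : ℕ) : EReal)) ∧
        (LogNef y n Δ → LogTorsion y n Δ)) := by
  have hfix' := noInv_CE hy' hc' hfix
  obtain ⟨h1, h2, h3⟩ := dominated hy hy' hn hn' hn0 hc' hΔ' h𝒯 hTΔ hfix' hΔ hπ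
  refine ⟨h1, fun hfm hps => ?_, fun hq => ⟨fun hps => (h2 hq hps).2, fun hnef => ?_⟩⟩
  · refine (finite_img hy hy' hn hn' hn0 hc' hΔ' h𝒯 hTΔ hfix' hfm hΔ.2 (fun Q P e hQ hl => ?_)
      hps).1
    obtain ⟨α, ha, hb⟩ := hπ Q hQ P e hl
    have hP : IsPrimeDivisor y P := (hfm Q P e hl).1 hQ
    have h4 := logDisc_prime hP ha
    refine hb.trans (mul_le_mul_of_nonneg_left h4 (Nat.cast_nonneg _))
  · obtain ⟨m, hm, ω, h4, h5, h6⟩ := h3 hq hnef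
    exact ⟨m, hm, ω, h5, h4.1, h6⟩

/-- **The Kodaira dimension of the images.** -/
theorem alternative (hy : NormalModel y) (hy' : NormalModel y') (hn : Algebra.trdeg ℂ K = n)
    (hn' : Algebra.trdeg ℂ K' = n) (hn0 : 0 < n)
    {c' : Place ℂ K' → Fin ρ → ℤ} (hc' : PicardBasis y' c') {Δ' : Place ℂ K' → ℚ}
    (hΔ' : Effective y' Δ') {𝒯 : Set ((Fin ρ → ℝ) ≃ₗ[ℝ] (Fin ρ → ℝ))}
    (h𝒯 : ∀ T ∈ 𝒯, ∃ ψ, PseudoAut ψ y' ∧ IsPullBack y' c' ψ T)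
    (hTΔ : ∀ T ∈ 𝒯, T (realClass y' c' Δ') = realClass y' c' Δ')
    (hfix : NoInvariantClass y' c' 𝒯) (hcan : Canonical y n) (π : K →ₐ[ℂ] K') :
    NumDimLt y n 0 1 ∧ (IrregularityZero y →
      (¬ LogPsef y n 0 ∧ kodairaDim y n 0 = ⊥) ∨
      (LogPsef y n 0 ∧ kodairaDim y n 0 = ((0 : ℕ) : WithBot ℕ) ∧
        ∀ A, Effective y A → Integral y A → numericalDim y n 0 A = ((0 : ℕ) : EReal))) := by
  have h0 : Effective y (0 : Place ℂ K → ℚ) := ⟨fun _ _ => le_rfl,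
    Set.finite_empty.subset (by rintro P ⟨-, h⟩; exact h rfl)⟩
  obtain ⟨h1, -, h2⟩ := pairs (Δ := 0) hy hy' hn hn' hn0 hc' hΔ'.2 h𝒯 hTΔ hfix h0
    (pullBackAtMost_canonical hy hy' hn hn' hcan hΔ'.1 (π := π))
  refine ⟨h1, fun hq => ?_⟩
  by_cases hps : LogPsef y n 0
  · exact Or.inr ⟨hps, (h2 hq).1 hps⟩
  · exact Or.inl ⟨hps, by
      by_contra hk
      exact hps (psef_of_kodaira hy hn hk)⟩

end

end Pool.Agent.H59C
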