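import Pool.Agent.H73.MR.CocGeo
import Pool.Agent.N110.CC.Hull
import Pool.Agent.N110.IM.Main

/-!
The numerical dimension of `K_X + Δ` is at most zero if the class of `K_X + Δ` is zero, or not
pseudo-effective.
-/

set_option autoImplicit false
set_option linter.unusedSectionVars false
set_option linter.overlappingInstances false

open FF Module Pool.Agent.W602.GT Pool.Agent.Y172 Pool.Agent.R887 Pool.Agent.W619.PQ
open Pool.Agent.N110 Pool.Agent.N110.PA Pool.Agent.N110.NV Pool.Agent.N492.PA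
open Pool.Agent.N110.CC
open Pool.Agent.N165.KM (interior_add_mem interior_smul_mem)
open Filter Topology

namespace Pool.Agent.H59C

section

variable {K : Type} [Field K] [Algebra ℂ K] {N n ρ : ℕ} {y : Fin (N + 1) → K}
  {c : Place ℂ K → Fin ρ → ℤ}

/-- the bound of the degree of one function -/
theorem degree_le (hy : NormalModel y) (hn : Algebra.trdeg ℂ K = n) (hn0 : 0 < n)
    {i : Fin (N + 1)} (hi : y i ≠ 0) {u : Fin (n - 1) → K} (hu : ∀ a, IsPencil y (u a))
    {g0 g1 f : K} (hg0 : g0 ≠ 0) (hf : f ≠ 0) {B q : ℕ} (hq : 1 ≤ q)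
    (h0 : ∀ P, IsPrimeDivisor y P → ∀ l, Centred y l P →
      0 ≤ P.ord f + q * P.ord g0 + B * P.ord (y i / y l))
    (h1 : g1 ≠ 0 → ∀ P, IsPrimeDivisor y P → ∀ l, Centred y l P →
      0 ≤ P.ord f + q * P.ord g1 + B * P.ord (y i / y l)) (w : Fin 1 → K)
    (hw : w = fun _ => g1 / g0) :
    q * degreeOver u w ≤ B * I (Multiset.replicate n (hcls hy hi)) := by
  have cx := ctx hy hn hi
  have e1 : degreeOver u w = dm ℂ (toM u + toM w) := deg_dm (toM_set _) (toM_set _)
  obtain ⟨Q', hQ', hle⟩ := replace_pencils' hy hn hi (toM u) (toM w)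
    (by rw [Multiset.card_add, toM_card, toM_card]; omega) (fun z hz => by
      obtain ⟨j, rfl⟩ := mem_toM.1 hz
      exact hu j)
  rw [toM_card] at hQ'
  have hQc : Q'.card + 1 = n := by
    rw [hQ'.card, Multiset.card_replicate]
    omega
  have e2 : Q' + toM w = (g1 / g0) ::ₘ Q' := by
    have h2 : toM w = {g1 / g0} := by
      rw [hw]
      unfold toM
      simp
    rw [h2, Multiset.add_comm, Multiset.singleton_add]
  rw [e2, ← e1] at hle
  have hb : ∀ g : K, (g ≠ 0 → ∀ P, IsPrimeDivisor y P → ∀ l, Centred y l P →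
      0 ≤ P.ord f + q * P.ord g + B * P.ord (y i / y l)) →
      Bnd ℂ (affS y i) B (f * g ^ q) := by
    intro g hg
    by_cases hg0 : g = 0
    · intro P
      refine ⟨1, one_affS hi, one_ne_zero, ?_⟩
      rw [hg0, zero_pow (by omega), mul_zero, P.ord_one, P.ord_zero]
      simp
    · refine bnd_prime hy hi (mul_ne_zero hf (pow_ne_zero _ hg0)) fun P hP l hl => ?_
      rw [P.ord_mul hf (pow_ne_zero _ hg0), P.ord_pow]
      exact hg hg0 P hP l hl
  obtain ⟨v, hv, h2⟩ := repl hn (fin_affS i) (one_affS hi) (B := B) (f₀ := f * g0 ^ q)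
    (f₁ := f * g1 ^ q) (mul_ne_zero hf (pow_ne_zero _ hg0)) (hb g0 fun _ => h0) (hb g1 h1) hQc
  rw [mul_div_mul_left _ _ hf, ← div_pow] at h2
  have h3 := dm_pow hn (z := g1 / g0) hQc hq
  have h4 : dm ℂ (v ::ₘ Q') ≤ I (Multiset.replicate n (hcls hy hi)) := by
    have h5 : Multiset.replicate n (hcls hy hi) =
        hcls hy hi ::ₘ Multiset.replicate (n - 1) (hcls hy hi) := by
      rw [← Multiset.replicate_succ]
      congr 1
      omega
    rw [h5]
    refine le_I cx ?_ (sel_cons hv hQ')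
    rw [Multiset.card_cons, Multiset.card_replicate]
    omega
  calc q * degreeOver u w ≤ q * dm ℂ ((g1 / g0) ::ₘ Q') := Nat.mul_le_mul_left _ hle
    _ ≤ B * dm ℂ (v ::ₘ Q') := h3.trans h2
    _ ≤ _ := Nat.mul_le_mul_left _ h4

/-- **The numerical dimension is at most zero.** -/
theorem numDim_zero (hy : NormalModel y) (hn : Algebra.trdeg ℂ K = n) (hn0 : 0 < n)
    (hc : PicardBasis y c) {x : Fin n → K} {E : Fin n → Derivation ℂ K K} {k : Place ℂ K → ℤ}
    (hk : Can y x E k) {Δ : Place ℂ K → ℚ} (hΔ : Fin0 y Δ)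
    (h : cls y (cQ c) (fun P => (k P : ℚ) + Δ P) = 0 ∨
      toR (cls y (cQ c) (fun P => (k P : ℚ) + Δ P)) ∉ CE y c) : NumDimLt y n Δ 1 := by
  intro A hA ε hε
  obtain ⟨i, hi⟩ := hy.ne
  obtain ⟨Hy, hHe, hH⟩ := exists_hyp hy hi
  have hpc := pc_eff hc.numClasses
  obtain ⟨G, hG⟩ : ∃ G : Place ℂ K → ℚ, G = fun P => (k P : ℚ) + Δ P := ⟨_, rfl⟩
  have hGf : Fin0 y G := by
    rw [hG]
    exact hk.finD hΔ
  rw [← hG] at h
  have hAf : Fin0 y A := hA.2
  have hHf : Fin0 y Hy := hHe.2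
  have hα0 : 0 ≤ ‖toR (cls y (cQ c) A)‖ := norm_nonneg _
  have hord : ∀ m b : ℕ, ∀ ω : (Fin n → Derivation ℂ K K) → K, IsSection y n m (m • Δ + b • A) ω →
      ω E ≠ 0 → ∀ P, IsPrimeDivisor y P → 0 ≤ (P.ord (ω E) : ℚ) + (m * G P + b * A P) := by
    intro m b ω hω h0 P hP
    have h1 := ((hk.ord P hP m ω hω.1 _).1 (hω.2 P hP)).resolve_left h0
    have h2 : (m • Δ + b • A : Place ℂ K → ℚ) P = m * Δ P + b * A P := by
      rw [Pi.add_apply, Pi.smul_apply, Pi.smul_apply, nsmul_eq_mul, nsmul_eq_mul]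
    rw [h2] at h1
    rw [hG]
    linarith
  rcases h with h | h
  · -- the class is zero
    obtain ⟨CH, hCH⟩ : ∃ CH, CH = I (Multiset.replicate n (hcls hy hi)) := ⟨_, rfl⟩
    obtain ⟨M, hM⟩ := exists_nat_gt ((CH : ℝ) / ε)
    have hM0 : (0 : ℝ) < M := lt_of_le_of_lt (by positivity) hM
    have hM1 : 1 ≤ M := by exact_mod_cast hM0
    have hint := hyp_intN hy hc hi hHe hH
    obtain ⟨δ, hδ, hball⟩ := Metric.isOpen_iff.1 isOpen_interior _ hint
    refine ⟨δ / (M * (‖toR (cls y (cQ c) A)‖ + 1)), by positivity, 1,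
      fun m b hm hb u hu ω E0 hω hω0 => ?_⟩
    have hm0 : (0 : ℝ) < m := by exact_mod_cast hm
    obtain ⟨L, hL⟩ : ∃ L : Place ℂ K → ℚ,
      L = fun P => ((m : ℚ) / M * Hy P + (-(m : ℚ)) * G P) + (-(b : ℚ)) * A P := ⟨_, rfl⟩
    have hf1 : Fin0 y (fun P => (m : ℚ) / M * Hy P) := hHf.smul _
    have hf2 : Fin0 y (fun P => (-(m : ℚ)) * G P) := hGf.smul _
    have hf3 : Fin0 y (fun P => (-(b : ℚ)) * A P) := hAf.smul _
    have hLf : Fin0 y L := by
      rw [hL]
      exact Fin0.add (Fin0.add hf1 hf2) hf3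
    have hLc : cls y (cQ c) L = ((m : ℚ) / M) • cls y (cQ c) Hy + (-(b : ℚ)) • cls y (cQ c) A := by
      rw [hL, cls_add (Fin0.add hf1 hf2) hf3, cls_add hf1 hf2, cls_smul, cls_smul, cls_smul, h,
        smul_zero, add_zero]
    have hLi : toR (cls y (cQ c) L) ∈ interior (CE y c) := by
      have h2 : toR (cls y (cQ c) L) = ((m : ℝ) / M) • (toR (cls y (cQ c) Hy) +
          (-((b : ℝ) * M / m)) • toR (cls y (cQ c) A)) := by
        rw [hLc]
        funext j
        simp only [toR, Pi.add_apply, Pi.smul_apply, smul_eq_mul]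
        push_cast
        field_simp
      rw [h2]
      refine interior_smul_mem hpc.smul (by positivity) (hball ?_)
      rw [Metric.mem_ball, dist_eq_norm, add_sub_cancel_left, norm_smul, Real.norm_eq_abs, abs_neg,
        abs_of_nonneg (by positivity)]
      have h3 : (b : ℝ) * (M * (‖toR (cls y (cQ c) A)‖ + 1)) ≤ δ * m := by
        rw [div_mul_eq_mul_div, le_div_iff₀ (by positivity)] at hb
        exact hb
      rw [div_mul_eq_mul_div, div_lt_iff₀ hm0]
      rcases Nat.eq_zero_or_pos b with hb0 | hb0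
      · rw [hb0]
        simp only [Nat.cast_zero, zero_mul]
        positivity
      · have hb0' : (0 : ℝ) < b := by exact_mod_cast hb0
        have h4 : 0 < (b : ℝ) * M := by positivity
        nlinarith
    obtain ⟨q, hq, f, hf, hfL⟩ := Pool.Agent.N619.CC.leafBIG K N ρ y hy c hc L hLf hLi i hi
    have hge : ∀ g : K, (∀ P, IsPrimeDivisor y P → 0 ≤ (P.ord g : ℚ) + (m * G P + b * A P)) →
        ∀ P, IsPrimeDivisor y P → ∀ l, Centred y l P →
        0 ≤ P.ord (f ^ M) + (q * M : ℕ) * P.ord g + (q * m : ℕ) * P.ord (y i / y l) := by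
      intro g hg P hP l hl
      have h2 := hfL P l hP hl
      have h3 := hg P hP
      have h4 := hH P l hP hl
      have h5 : 0 ≤ Hy P := hHe.1 P hP
      rw [h4] at h5
      rw [hL] at h2
      beta_reduce at h2
      rw [h4] at h2
      have hMq : (0 : ℚ) < M := by exact_mod_cast hM1
      have hqq : (0 : ℚ) < q := by exact_mod_cast hq
      have h6 : (0 : ℚ) ≤ (M : ℚ) * P.ord f + (q * M) * P.ord g + (q * m) * P.ord (y i / y l) := by
        have h7 : (M : ℚ) * (q * ((m : ℚ) / M * P.ord (y i / y l) + -(m : ℚ) * G P +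
            -(b : ℚ) * A P)) = q * (m * P.ord (y i / y l)) - (q * M) * (m * G P + b * A P) := by
          field_simp
          ring
        have h8 := mul_le_mul_of_nonneg_left h2 hMq.le
        have h9 := mul_nonneg (mul_nonneg hqq.le hMq.le) h3
        have h10 := mul_nonneg hMq.le h5
        linarith
      rw [P.ord_pow]
      have h7 : (0 : ℚ) ≤ ((M * P.ord f + (q * M : ℕ) * P.ord g +
          (q * m : ℕ) * P.ord (y i / y l) : ℤ) : ℚ) := by
        push_cast
        exact h6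
      exact_mod_cast h7
    have hE0 : ω 0 E ≠ 0 := (Pool.Agent.N110.ratio_frame hk.frame (hω 0).1 (hω 0).1 hω0).1
    have hrat : (fun a : Fin 1 => ω a.succ E0 / ω 0 E0) = fun _ => ω 1 E / ω 0 E := by
      funext a
      have ha : a = 0 := Subsingleton.elim _ _
      rw [ha]
      exact (Pool.Agent.N110.ratio_frame hk.frame (hω 0).1 (hω 1).1 hω0).2
    have hdeg := degree_le hy hn hn0 hi hu (g0 := ω 0 E) (g1 := ω 1 E) (f := f ^ M) hE0
      (pow_ne_zero _ hf) (B := q * m) (q := q * M) (Nat.mul_pos hq hM1)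
      (hge _ (hord m b _ (hω 0) hE0)) (fun h1 => hge _ (hord m b _ (hω 1) h1)) _ hrat
    rw [← hCH] at hdeg
    have h2 : M * degreeOver u (fun a : Fin 1 => ω a.succ E0 / ω 0 E0) ≤ m * CH := by
      have h3 : q * (M * degreeOver u (fun a : Fin 1 => ω a.succ E0 / ω 0 E0)) ≤ q * (m * CH) := by
        calc _ = q * M * degreeOver u (fun a : Fin 1 => ω a.succ E0 / ω 0 E0) := by ring
          _ ≤ q * m * CH := hdeg
          _ = _ := by ring
      exact Nat.le_of_mul_le_mul_left h3 hq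
    have h3 : (M : ℝ) * degreeOver u (fun a : Fin 1 => ω a.succ E0 / ω 0 E0) ≤ m * CH := by
      exact_mod_cast h2
    rw [div_lt_iff₀ hε] at hM
    rw [pow_one]
    have h4 : (M : ℝ) * degreeOver u (fun a : Fin 1 => ω a.succ E0 / ω 0 E0) ≤ M * (ε * m) := by
      refine h3.trans ?_
      nlinarith
    exact le_of_mul_le_mul_left h4 hM0
  · -- the class is not pseudo-effective
    obtain ⟨δ, hδ, hball⟩ := Metric.isOpen_iff.1 hpc.closed.isOpen_compl _ h
    refine ⟨δ / (‖toR (cls y (cQ c) A)‖ + 1), by positivity, 1,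
      fun m b hm hb u hu ω E0 hω hω0 => ?_⟩
    exfalso
    have hm0 : (0 : ℝ) < m := by exact_mod_cast hm
    have hE0 : ω 0 E ≠ 0 := (Pool.Agent.N110.ratio_frame hk.frame (hω 0).1 (hω 0).1 hω0).1
    have hf0 : Fin0 y (fun P => (P.ord (ω 0 E) : ℚ)) := fin_cast (finite_ord hy hE0)
    have hf2 : Fin0 y (fun P => (m : ℚ) * G P) := hGf.smul _
    have hf3 : Fin0 y (fun P => (b : ℚ) * A P) := hAf.smul _
    have heff : Effective y (fun P => (P.ord (ω 0 E) : ℚ) + (m * G P + b * A P)) :=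
      ⟨fun P hP => hord m b _ (hω 0) hE0 P hP, Fin0.add hf0 (Fin0.add hf2 hf3)⟩
    have h2 := subset_closure (eff_mem (c := cQ c) heff)
    have hpr : cls y (cQ c) (fun P => (P.ord (ω 0 E) : ℚ)) = 0 := hc.numClasses.principal _ hE0
    rw [cls_add hf0 (Fin0.add hf2 hf3), cls_add hf2 hf3, cls_smul, cls_smul, hpr, zero_add] at h2
    have h3 := hpc.smul (1 / m) (by positivity) _ h2
    have h4 : (1 / (m : ℝ)) • toR ((m : ℚ) • cls y (cQ c) G + (b : ℚ) • cls y (cQ c) A) =
        toR (cls y (cQ c) G) + ((b : ℝ) / m) • toR (cls y (cQ c) A) := by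
      funext j
      simp only [toR, Pi.add_apply, Pi.smul_apply, smul_eq_mul]
      push_cast
      field_simp
    rw [h4] at h3
    refine hball ?_ h3
    rw [Metric.mem_ball, dist_eq_norm, add_sub_cancel_left, norm_smul, Real.norm_eq_abs,
      abs_of_nonneg (by positivity)]
    rw [div_mul_eq_mul_div, le_div_iff₀ (by positivity)] at hb
    rw [div_mul_eq_mul_div, div_lt_iff₀ hm0]
    rcases Nat.eq_zero_or_pos b with hb0 | hb0
    · rw [hb0]
      simp only [Nat.cast_zero, zero_mul]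
      positivity
    · have hb0' : (0 : ℝ) < b := by exact_mod_cast hb0
      nlinarith

end

end Pool.Agent.H59C
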